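import Pool.Agent.H75.PP.GPick
import Pool.Agent.H56.PP.Cyc
import Pool.Agent.H85.PP.Gen
import Pool.Agent.H85.PC.Defs

/-!
helper75 (project MP_28250c_PP, block G7): Theorem G. `outGW`: the output of block G for clauses of at most `w` literals whose graded
product vanishes and for clauses of variables with sum `J`; `outG`: the interface `OutG`.
-/

set_option autoImplicit false
open Finset

namespace PPh.Sd

open ACpFrege

variable {K : Type} [Field K] {E : Type} [AddCommGroup E] [Module K E] {n : ℕ} {p : ℕ}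

/-- The graded action of the complement of a literal. -/
private theorem GOut_lit (g : Gm K E n) (σ : Sel K n) (t : ℕ) (i : Fin n × Bool) :
    g.hact 1 (1 - σ.h t (litFm p (i.1.1, i.2))) = if i.2 then g.J - g.X i.1 else g.X i.1 := by
  have hx : σ.h t (.var (i.1.1) : Fm p) = mono K {i.1} := by
    rw [h_var, mono_single]
    funext a
    rw [dif_pos i.1.2]
  unfold litFm
  by_cases hb : i.2
  · rw [if_pos hb, if_pos hb]
    simp only
    rw [hx, g.hact_sub, g.hact_one, pow_one, g.hact_var]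
  · rw [if_neg hb, if_neg hb]
    simp only
    rw [h_neg, hx, sub_sub_cancel, g.hact_var]

private theorem GOut_prod (g : Gm K E n) (σ : Sel K n) (t : ℕ) (l : List (Fin n × Bool)) :
    (((l.map fun i => ((i.1.1, i.2) : Lit)).map fun l => 1 - σ.h t (litFm p l)).prod ∈ Dg K n l.length) ∧
      g.hact l.length (((l.map fun i => ((i.1.1, i.2) : Lit)).map fun l => 1 - σ.h t (litFm p l)).prod) = g.nprod l := by
  induction l with
  | nil =>
    refine ⟨Dg_one _, ?_⟩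
    rw [List.map_nil, List.map_nil, List.prod_nil, List.length_nil, g.hact_one, pow_zero]
    rfl
  | cons i l ih =>
    have h1 : 1 - σ.h t (litFm p (i.1.1, i.2)) ∈ Dg K n 1 := Submodule.sub_mem _ (Dg_one _) (lit_dg σ t _)
    rw [List.map_cons, List.map_cons, List.prod_cons, List.length_cons, Nat.add_comm l.length 1]
    refine ⟨Dg_mul h1 ih.1, ?_⟩
    rw [g.hact_mul h1 ih.1, ih.2, GOut_lit]
    unfold Gm.nprod
    rw [List.map_cons, List.prod_cons]

private theorem GOut_arith {p t L C S N A R D W X Lm w : ℕ} (hC : 60 * S + w + 2 ≤ C) (hS : 1 ≤ S)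
    (hN : 1 ≤ N) (hCN : C * N * A * 2 ^ t < 3 ^ t) (hR : C * N ^ 2 * L ≤ R) {e kap : ℕ} (he : e ≤ L) (hpe : p * e ≤ L)
    (hk : R * kap ≤ D) (hΛ : Lm ≤ 3 * S * N) (hX : X ≤ A * D)
    (h : 3 ^ t * D ≤ 3 ^ t * W + Lm * (2 ^ t * X + 3 ^ t * ((3 * N + 2 * p) * (e * kap)))) : D ≤ 2 * W := by
  have h1 : 4 * (Lm * (2 ^ t * X)) ≤ 3 ^ t * D := by
    calc 4 * (Lm * (2 ^ t * X)) ≤ 4 * ((3 * S * N) * (2 ^ t * (A * D))) := by
          exact Nat.mul_le_mul_left _ (Nat.mul_le_mul hΛ (Nat.mul_le_mul_left _ hX))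
      _ = (12 * S * N * A * 2 ^ t) * D := by ring
      _ ≤ (C * N * A * 2 ^ t) * D := by
          refine Nat.mul_le_mul_right _ (Nat.mul_le_mul_right _ (Nat.mul_le_mul_right _ (Nat.mul_le_mul_right _ ?_)))
          omega
      _ ≤ 3 ^ t * D := Nat.mul_le_mul_right _ hCN.le
  have h2 : 4 * (Lm * (3 ^ t * ((3 * N + 2 * p) * (e * kap)))) ≤ 3 ^ t * D := by
    have h3 : (3 * N + 2 * p) * e ≤ 5 * N * L := by
      calc (3 * N + 2 * p) * e = 3 * N * e + 2 * (p * e) := by ring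
        _ ≤ 3 * N * L + 2 * L := Nat.add_le_add (Nat.mul_le_mul_left _ he) (Nat.mul_le_mul_left _ hpe)
        _ ≤ 3 * N * L + 2 * (N * L) := by
            refine Nat.add_le_add_left (Nat.mul_le_mul_left _ ?_) _
            exact Nat.le_mul_of_pos_left _ hN
        _ = 5 * N * L := by ring
    calc 4 * (Lm * (3 ^ t * ((3 * N + 2 * p) * (e * kap)))) = 3 ^ t * (4 * Lm * ((3 * N + 2 * p) * e) * kap) := by ring
      _ ≤ 3 ^ t * (4 * (3 * S * N) * (5 * N * L) * kap) := by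
          refine Nat.mul_le_mul_left _ (Nat.mul_le_mul_right _ (Nat.mul_le_mul (Nat.mul_le_mul_left _ hΛ) h3))
      _ = 3 ^ t * (60 * S * N ^ 2 * L * kap) := by ring
      _ ≤ 3 ^ t * (C * N ^ 2 * L * kap) := by
          refine Nat.mul_le_mul_left _ (Nat.mul_le_mul_right _ (Nat.mul_le_mul_right _ (Nat.mul_le_mul_right _ ?_)))
          omega
      _ ≤ 3 ^ t * (R * kap) := Nat.mul_le_mul_left _ (Nat.mul_le_mul_right _ hR)
      _ ≤ 3 ^ t * D := Nat.mul_le_mul_left _ hk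
  have h3 : Lm * (2 ^ t * X + 3 ^ t * ((3 * N + 2 * p) * (e * kap))) =
      Lm * (2 ^ t * X) + Lm * (3 ^ t * ((3 * N + 2 * p) * (e * kap))) := by ring
  rw [h3] at h
  have h4 : 3 ^ t * D ≤ 3 ^ t * (2 * W) := by
    have e1 : 3 ^ t * (2 * W) = 2 * (3 ^ t * W) := by ring
    rw [e1]
    omega
  exact Nat.le_of_mul_le_mul_left h4 (Nat.pow_pos (by norm_num))

private theorem GOut_arith2 {L R D W del kap : ℕ} (hL : 1 ≤ L) (hD : 16 * L ^ 2 * del ^ 2 < D) (hR : 16 * L * del ≤ R)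
    (hk : R * kap ≤ D) (hW : D ≤ 2 * W) : (kap + del + L) * L * del < W := by
  have h1 : 16 * (kap * L * del) ≤ D := by
    calc 16 * (kap * L * del) = (16 * L * del) * kap := by ring
      _ ≤ R * kap := Nat.mul_le_mul_right _ hR
      _ ≤ D := hk
  have h2 : 16 * (del * L * del) ≤ 16 * L ^ 2 * del ^ 2 := by
    calc 16 * (del * L * del) = 16 * (L * 1) * del ^ 2 := by ring
      _ ≤ 16 * (L * L) * del ^ 2 := Nat.mul_le_mul_right _ (Nat.mul_le_mul_left _ (Nat.mul_le_mul_left _ hL))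
      _ = 16 * L ^ 2 * del ^ 2 := by ring
  have h3 : 16 * (L * L * del) ≤ 16 * L ^ 2 * del ^ 2 := by
    have h4 : del ≤ del ^ 2 := by
      rcases Nat.eq_zero_or_pos del with h | h
      · rw [h]; norm_num
      · calc del = del * 1 := by ring
          _ ≤ del * del := Nat.mul_le_mul_left _ h
          _ = del ^ 2 := by ring
    calc 16 * (L * L * del) = 16 * L ^ 2 * del := by ring
      _ ≤ 16 * L ^ 2 * del ^ 2 := Nat.mul_le_mul_left _ h4
  have h5 : (kap + del + L) * L * del = kap * L * del + del * L * del + L * L * del := by ring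
  rw [h5]
  omega

private theorem GOut_pow {p t d L C w : ℕ} (hp : 2 ≤ p) (ht : 1 ≤ t) (S : List (Rule p)) (hC : 60 * sysC S + w + 2 ≤ C)
    (hL : C * (p * t) ^ (d + 2) ≤ L) : 4 * TA S t d ≤ L ∧ (t + 2) * (p * (t * p) ^ d) ≤ L ∧
      t * ((p - 1) * (t * p) ^ d) + (t * p) ^ d ≤ L ∧ (t * p) ^ d + w + 1 ≤ L ∧ t * (t * p) ^ d ≤ L ∧ p * (t * p) ^ d ≤ L ∧
      1 ≤ L ∧ (t * p) ^ d ≤ L := by
  have hS : 1 ≤ sysC S := sysC_pos S
  obtain ⟨e, he⟩ : ∃ e, e = (t * p) ^ d := ⟨_, rfl⟩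
  have hY : (p * t) ^ (d + 2) = e * (p * t) * (p * t) := by
    rw [he, mul_comm t p]
    ring
  have hpt : 2 ≤ p * t := by
    calc 2 = 2 * 1 := rfl
      _ ≤ p * t := Nat.mul_le_mul hp ht
  have he1 : 1 ≤ e := by
    rw [he]
    exact Nat.one_le_pow _ _ (Nat.mul_pos (by omega) (by omega))
  obtain ⟨Y, hYY⟩ : ∃ Y, Y = (p * t) ^ (d + 2) := ⟨_, rfl⟩
  rw [← hYY] at hL hY
  have g0 : 2 * (e * (p * t)) ≤ Y := by
    rw [hY, mul_comm 2]
    exact Nat.mul_le_mul_left _ hpt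
  have g1 : 2 * e ≤ e * (p * t) := by
    rw [mul_comm 2]
    exact Nat.mul_le_mul_left _ hpt
  have g2 : t * e ≤ e * (p * t) := by
    calc t * e = e * (1 * t) := by ring
      _ ≤ e * (p * t) := Nat.mul_le_mul_left _ (Nat.mul_le_mul_right _ (by omega))
  have g3 : p * e ≤ e * (p * t) := by
    calc p * e = e * (p * 1) := by ring
      _ ≤ e * (p * t) := Nat.mul_le_mul_left _ (Nat.mul_le_mul_left _ ht)
  have g4 : TA S t d ≤ sysC S * Y := by
    unfold TA
    refine Nat.mul_le_mul_left _ ?_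
    rw [hY, ← he]
    calc p * (t * (p * e)) = e * (p * t) * p := by ring
      _ ≤ e * (p * t) * (p * t) := Nat.mul_le_mul_left _ (Nat.le_mul_of_pos_right _ ht)
  have hCY : (60 * sysC S + w + 2) * Y ≤ L := (Nat.mul_le_mul_right _ hC).trans hL
  have e1 : (60 * sysC S + w + 2) * Y = 60 * (sysC S * Y) + w * Y + 2 * Y := by ring
  have g5 : Y ≤ sysC S * Y := Nat.le_mul_of_pos_left _ hS
  have g6 : 1 ≤ Y := by omega
  have g7 : w ≤ w * Y := Nat.le_mul_of_pos_right _ g6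
  rw [e1] at hCY
  rw [← he]
  refine ⟨by omega, ?_, ?_, by omega, by omega, by omega, by omega, by omega⟩
  · have e2 : (t + 2) * (p * e) = e * (p * t) + 2 * (p * e) := by ring
    rw [e2]
    omega
  · have e2 : t * ((p - 1) * e) ≤ e * (p * t) := by
      calc t * ((p - 1) * e) ≤ t * (p * e) := Nat.mul_le_mul_left _ (Nat.mul_le_mul_right _ (Nat.sub_le _ _))
        _ = e * (p * t) := by ring
    omega

theorem outGW (p w : ℕ) [Fact p.Prime] : OutGW p w := by
  classical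
  intro S hS
  refine ⟨60 * sysC S + w + 2, ?_⟩
  intro d n F L A R del N t hs ht hL hCN hR hdelR π hπ
  obtain ⟨E, _, _, _, g, hD, hA, hRk, hdel, hcl⟩ := hs
  by_contra hlt
  rw [not_lt] at hlt
  have hp := (Fact.out : p.Prime).two_le
  obtain ⟨b1, b2, b3, b4, b5, b6, b7, b8⟩ := GOut_pow hp ht S le_rfl hL
  have hpi : 1 ≤ psize π := by
    unfold psize
    have h1 : (cnL true ([] : List (Fm p))).size ∈ π.map Fm.size := List.mem_map.2 ⟨_, hπ.2.2, rfl⟩
    have h2 := List.single_le_sum (l := π.map Fm.size) (fun x _ => Nat.zero_le x) _ h1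
    have h3 : 1 ≤ (cnL true ([] : List (Fm p))).size := by
      rw [← subs_length]
      exact List.length_pos_of_mem (subs_self _)
    omega
  have hN : 1 ≤ N := hpi.trans hlt
  have hRpos : 0 < R := by
    refine lt_of_lt_of_le ?_ hR
    exact Nat.mul_pos (Nat.mul_pos (by omega) (Nat.pow_pos hN)) b7
  obtain ⟨D, hDe⟩ : ∃ D, D = Module.finrank (ZMod p) (g.M 0) := ⟨_, rfl⟩
  rw [← hDe] at hD hA hRk
  obtain ⟨kap, hkape⟩ : ∃ kap, kap = D / R := ⟨_, rfl⟩
  have hkap : ∀ j < L, Module.finrank (ZMod p) ↥(g.M j ⊓ LinearMap.ker g.J) ≤ kap := by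
    intro j hj
    rw [hkape, Nat.le_div_iff_mul_le hRpos, mul_comm]
    exact hRk j hj
  have hkR : R * kap ≤ D := by
    rw [hkape]
    exact Nat.mul_div_le D R
  obtain ⟨e, he⟩ : ∃ e, e = (t * p) ^ d := ⟨_, rfl⟩
  rw [← he] at b2 b3 b4 b5 b6 b8
  obtain ⟨Λ, hlen, hsub, hmem, hsound⟩ := sound S hS d F π hπ
  have hdeg : ∀ (σ : Sel (ZMod p) n) k l, cnL k l ∈ Λ → ∀ b ∈ σ.fl t k l, b ∈ Dg (ZMod p) n e := by
    intro σ k l h
    rw [he]
    exact deg_fl σ ht (fun A hA => (hmem k l h A hA).2) k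
  obtain ⟨σ, hσ⟩ : ∃ σ, σ = selG g p t e kap := ⟨_, rfl⟩
  obtain ⟨W, hW0, hWR, hWd⟩ := pickG (p := p) (r := N) g hkap b2 Λ (fun k l h => by
    refine ⟨hdeg _ k l h, ?_⟩
    exact (reps_card _).trans ((fl_card _ t k l π fun A hA => (hmem k l h A hA).1).trans hlt))
  rw [← hσ] at hWR
  rw [← hDe] at hWd
  have hW : D ≤ 2 * Module.finrank (ZMod p) W :=
    GOut_arith (p := p) (w := w) le_rfl (sysC_pos S) hN hCN hR b8 b6 hkR
      (hlen.trans (Nat.mul_le_mul_left _ hlt)) (hA _ b5) hWd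
  obtain ⟨f, hfW, hf0, hinj⟩ := generic g W hW0 L kap del (fun a ha => hdel a ha.le) hkap
    (GOut_arith2 b7 hD hdelR hkR hW)
  obtain ⟨s, hsL, hs0, hsne, hact, hpos, _⟩ := cyclic g L f hinj hf0
  obtain ⟨f', hf'⟩ : ∃ f', f' = (g.J ^ L) f := ⟨_, rfl⟩
  rw [← hf'] at hs0 hsne hact
  -- transfer
  have hZ : ∀ a ≤ L, ∀ P ∈ Dg (ZMod p) n a, g.hact a P f = 0 → s.Z f' P := by
    intro a ha P hP h
    unfold Slow.Z
    rw [hact a ha P hP, h, map_zero]
  have hresp : ∀ B ∈ Λ, s.RespS σ t f' B := by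
    intro B hB
    by_cases hcn : ∃ k l, B = cnL k l
    · obtain ⟨k, l, rfl⟩ := hcn
      rw [resp_iff]
      intro b hb
      have hbd := hdeg σ k l hB b hb
      have h1 := hWR f hfW _ hB k l rfl b hb
      refine hZ _ b3 _ ?_ h1
      exact Dg_mul (Submodule.sub_mem _ (Dg_one _) (pl_dg (gv_dg σ t e k _ (hdeg σ k l hB)))) (pl_dg hbd)
    · refine resp_triv s σ t f' B fun k l h => hcn ⟨k, l, h⟩
  refine hsne (hsound (ZMod p) E n s σ t ht f' hs0 hresp (fun C hC hCπ => ?_) (by rw [hsL]; exact b1))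
  have hRC := hresp _ (hsub _ hCπ _ (subs_self _))
  have hCd : σ.h t (clauseFm C : Fm p) ∈ Dg (ZMod p) n e := by
    rw [he]
    exact deg_h σ ht (hπ.1 _ hCπ)
  rcases hcl C hC with ⟨l, hlw, hCl, hnp⟩ | ⟨l, _, hCl, hsum⟩
  · have hlen' : C.length ≤ w := by
      rw [hCl, List.length_map]
      exact hlw
    refine clause_ok (T := e) s σ hs0 C ?_ hRC hCd (by rw [hsL]; omega)
    obtain ⟨h1, _⟩ := foldr_act (p := p) s σ t hs0 C (by rw [hsL]; omega)
    rw [h1]
    obtain ⟨h3, h4⟩ := GOut_prod (p := p) g σ t l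
    rw [hCl, hact l.length (by omega) _ h3, h4, hnp, map_zero]
  · subst hCl
    refine clause_okP (T := e) s σ hs0 l hRC hCd (by rw [hsL]; omega) ?_
    exact hpos l hsum 0 (by omega) f' hs0

theorem outG (p : ℕ) [Fact p.Prime] : OutG p := by
  intro S hS
  obtain ⟨C, hC⟩ := outGW p 2 S hS
  refine ⟨C, fun d n F L A R del N t hs => hC d n F L A R del N t ?_⟩
  obtain ⟨E, i1, i2, i3, g, hD, hA, hRk, hdel, hcl⟩ := hs
  refine ⟨E, i1, i2, i3, g, hD, hA, hRk, hdel, fun C hC => ?_⟩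
  rcases hcl C hC with ⟨i, i', hCe, h⟩ | h
  · refine Or.inl ⟨[(i, false), (i', false)], le_rfl, by rw [hCe]; rfl, fun m => ?_⟩
    unfold Gm.nprod
    rw [List.map_cons, List.map_cons, List.map_nil, List.prod_cons, List.prod_cons, List.prod_nil, mul_one]
    exact h m
  · exact Or.inr h

end PPh.Sd
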