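import Pool.Agent.H75.PP.SSound
import Pool.Agent.H4.PP.GGate

/-!
helper75 (project MP_28250c_PP, block G3): the selection sets of a graded module (from the gate lemma of helper4) and a large subspace of
`M 0` of vectors which respect all gates of a list.
-/

set_option autoImplicit false
open Finset

namespace PPh.Sd

open ACpFrege

variable {K : Type} [Field K] {E : Type} [AddCommGroup E] [Module K E] {n : ℕ} {p : ℕ}

open Classical in
/-- One index for every function of the list. -/
noncomputable def reps (l : List (Pt n → K)) : Finset ℕ := l.toFinset.image fun g => l.idxOf g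

open Classical in
theorem reps_card (l : List (Pt n → K)) : (reps l).card ≤ l.toFinset.card := Finset.card_image_le

theorem reps_sub (l : List (Pt n → K)) : reps l ⊆ Finset.range l.length := by
  classical
  intro i hi
  unfold reps at hi
  rw [Finset.mem_image] at hi
  obtain ⟨g, hg, rfl⟩ := hi
  rw [List.mem_toFinset] at hg
  exact Finset.mem_range.2 (List.idxOf_lt_length_of_mem hg)

theorem reps_ex {l : List (Pt n → K)} {g : Pt n → K} (hg : g ∈ l) : ∃ i ∈ reps l, ∃ h : i < l.length, l[i] = g := by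
  classical
  refine ⟨l.idxOf g, ?_, List.idxOf_lt_length_of_mem hg, List.getElem_idxOf _⟩
  unfold reps
  exact Finset.mem_image_of_mem _ (List.mem_toFinset.2 hg)

/-- A good choice of the sets for a list of functions (`b` are the members). -/
def GoodG (g : Gm K E n) (p t e kap : ℕ) (l : List (Pt n → K)) (b : ℕ → Pt n → K) (I : ℕ → Finset ℕ) : Prop :=
  (∀ j, I j ⊆ reps l) ∧
    3 ^ t * Module.finrank K (g.M 0) ≤
      3 ^ t * Module.finrank K (g.gks (t * ((p - 1) * e) + e) (g.M 0) (hprod p t I b) (reps l) b) +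
        2 ^ t * Module.finrank K (g.M (t * e)) + 3 ^ t * ((3 * (reps l).card + 2 * p) * (e * kap))

open Classical in
/-- The selection sets of a graded module. -/
noncomputable def selG (g : Gm K E n) (p t e kap : ℕ) : Sel K n where
  sl := fun k l => if h : ∃ I, GoodG g p t e kap l (fam k l) I then h.choose else fun _ => ∅
  sub := by
    intro k l j
    split_ifs with h
    · exact (h.choose_spec.1 j).trans (reps_sub l)
    · exact Finset.empty_subset _

/-- Graded form: the vector `f` respects the gate `B`. -/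
def RespG (g : Gm K E n) (σ : Sel K n) {p : ℕ} (t a : ℕ) (f : E) (B : Fm p) : Prop :=
  ∀ k l, B = cnL k l → ∀ b ∈ σ.fl t k l, g.hact a ((1 - pl k (σ.gv p t k (σ.fl t k l))) * pl k b) f = 0

theorem pickG1 [FiniteDimensional K E] [Fact p.Prime] [CharP K p] (g : Gm K E n) {kap L t e : ℕ}
    (hkap : ∀ j < L, Module.finrank K ↥(g.M j ⊓ LinearMap.ker g.J) ≤ kap) (hL : (t + 2) * (p * e) ≤ L) (k : Bool)
    (l : List (Pt n → K)) (hl : ∀ b ∈ l, Bv b ∧ b ∈ Dg K n e) :
    ∃ W : Submodule K E, W ≤ g.M 0 ∧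
      (∀ f ∈ W, ∀ b ∈ l, g.hact (t * ((p - 1) * e) + e) ((1 - pl k ((selG g p t e kap).gv p t k l)) * pl k b) f = 0) ∧
      3 ^ t * Module.finrank K (g.M 0) ≤ 3 ^ t * Module.finrank K W +
        (2 ^ t * Module.finrank K (g.M (t * e)) + 3 ^ t * ((3 * (reps l).card + 2 * p) * (e * kap))) := by
  classical
  have hb : ∀ c ∈ reps l, fam k l c ∈ Dg K n e := by
    intro c hc
    have hc' := Finset.mem_range.1 (reps_sub l hc)
    rw [fam_eq k l c hc']
    exact pl_dg (hl _ (List.getElem_mem hc')).2
  have h01 : ∀ c ∈ reps l, Bv (fam k l c) := by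
    intro c hc
    have hc' := Finset.mem_range.1 (reps_sub l hc)
    rw [fam_eq k l c hc']
    exact pl_bv (hl _ (List.getElem_mem hc')).1
  have hex : ∃ I, GoodG g p t e kap l (fam k l) I := by
    obtain ⟨I, hI, _, h⟩ := ggate (p := p) g hkap (reps l) (fam k l) hb h01 hL
    exact ⟨I, hI, h⟩
  have hsel : (selG g p t e kap).sl k l = hex.choose := by
    unfold selG
    simp only
    rw [dif_pos hex]
  have hgood := hex.choose_spec.2
  rw [← hsel] at hgood
  refine ⟨g.gks (t * ((p - 1) * e) + e) (g.M 0) (hprod p t ((selG g p t e kap).sl k l) (fam k l)) (reps l) (fam k l), ?_, ?_, ?_⟩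
  · intro m hm
    exact ((mem_gks _ _ _ _ _ _ _).1 hm).1
  · intro f hf b hb'
    obtain ⟨i, hi, hil, hib⟩ := reps_ex hb'
    have h1 := ((mem_gks _ _ _ _ _ _ _).1 hf).2 i hi
    rw [fam_eq k l i hil, hib] at h1
    rw [pl_gv, sub_sub_cancel]
    exact h1
  · rw [← Nat.add_assoc]
    exact hgood

theorem pickG [FiniteDimensional K E] [Fact p.Prime] [CharP K p] (g : Gm K E n) {kap L t e r : ℕ}
    (hkap : ∀ j < L, Module.finrank K ↥(g.M j ⊓ LinearMap.ker g.J) ≤ kap) (hL : (t + 2) * (p * e) ≤ L) (Λ : List (Fm p))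
    (hΛ : ∀ k l, cnL k l ∈ Λ → (∀ b ∈ (selG g p t e kap).fl t k l, b ∈ Dg K n e) ∧ (reps ((selG g p t e kap).fl t k l)).card ≤ r) :
    ∃ W : Submodule K E, W ≤ g.M 0 ∧
      (∀ f ∈ W, ∀ B ∈ Λ, RespG g (selG g p t e kap) t (t * ((p - 1) * e) + e) f B) ∧
      3 ^ t * Module.finrank K (g.M 0) ≤ 3 ^ t * Module.finrank K W +
        Λ.length * (2 ^ t * Module.finrank K (g.M (t * e)) + 3 ^ t * ((3 * r + 2 * p) * (e * kap))) := by
  induction Λ with
  | nil =>
    refine ⟨g.M 0, le_rfl, ?_, ?_⟩
    · intro f _ B hB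
      exact absurd hB List.not_mem_nil
    · simp
  | cons B Λ ih =>
    obtain ⟨W, hW0, hWR, hWd⟩ := ih (fun k l hkl => hΛ k l (List.mem_cons_of_mem _ hkl))
    by_cases hB : ∃ k l, B = cnL k l
    · obtain ⟨k, l, hkl⟩ := hB
      have hmem : cnL k l ∈ B :: Λ := by
        rw [← hkl]
        exact List.mem_cons_self
      obtain ⟨W1, hW10, hW1R, hW1d⟩ := pickG1 (p := p) g hkap hL k ((selG g p t e kap).fl t k l)
        (fun b hb => ⟨fl_bv (selG g p t e kap) t k l b hb, (hΛ k l hmem).1 b hb⟩)
      refine ⟨W ⊓ W1, le_trans inf_le_left hW0, ?_, ?_⟩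
      · intro f hf C hC
        rw [Submodule.mem_inf] at hf
        rcases List.mem_cons.1 hC with hCB | hC
        · intro k' l' h'
          rw [hCB, hkl] at h'
          obtain ⟨rfl, rfl⟩ := cnL_inj h'
          exact hW1R f hf.2
        · exact hWR f hf.1 C hC
      · have h3 := inter_bound (g.M 0) W W1 hW0 hW10
        have h4 := Nat.mul_le_mul_left (3 ^ t) h3
        have h5 : 3 ^ t * ((3 * (reps ((selG g p t e kap).fl t k l)).card + 2 * p) * (e * kap)) ≤
            3 ^ t * ((3 * r + 2 * p) * (e * kap)) := by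
          refine Nat.mul_le_mul_left _ (Nat.mul_le_mul_right _ ?_)
          have := (hΛ k l hmem).2
          omega
        rw [Nat.mul_add, Nat.mul_add] at h4
        rw [List.length_cons, Nat.add_mul, Nat.one_mul]
        omega
    · refine ⟨W, hW0, ?_, ?_⟩
      · intro f hf C hC
        rcases List.mem_cons.1 hC with hCB | hC
        · intro k l h'
          exact absurd ⟨k, l, hCB ▸ h'⟩ hB
        · exact hWR f hf C hC
      · rw [List.length_cons, Nat.add_mul, Nat.one_mul]
        omega

end PPh.Sd
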