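import Pool.Agent.H75.PP.SSch1
import Pool.Agent.H98.AF.ADet
import Pool.Agent.H98.AF.AReal

/-!
helper75 (project MP_28250c_PP, block G6): SBase, adapted from H98/AF/ABase.lean with the selection sets as a parameter.
-/

set_option autoImplicit false
open Finset

namespace PPh.Sd

open ACpFrege

variable {K : Type} [Field K] {E : Type} [AddCommGroup E] [Module K E] {n : ℕ} {p : ℕ}

private theorem ABase_nat {g : Pt n → K} (h : Bv g) (x : Pt n) : ∃ m : ℕ, g x = (m : K) := by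
  rcases h x with h | h
  · exact ⟨0, by rw [h, Nat.cast_zero]⟩
  · exact ⟨1, by rw [h, Nat.cast_one]⟩

private theorem ABase_le [Fact p.Prime] {t d : ℕ} (ht : 1 ≤ t) : (t * p) ^ d ≤ t * (p * (t * p) ^ d) := by
  have h1 : 1 ≤ p := (Fact.out : p.Prime).one_lt.le
  calc (t * p) ^ d = 1 * (1 * (t * p) ^ d) := by ring
    _ ≤ t * (p * (t * p) ^ d) := Nat.mul_le_mul ht (Nat.mul_le_mul_right _ h1)

private theorem ABase_u (σ : Sel K n) (t : ℕ) {I : List ℕ} (J : List ℕ) (u : ℕ → Fm p) (G : ℕ → List (Fm p)) {i : ℕ}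
    (hi : i ∈ I) : σ.h t (u i) ∈ σ.UU t I J u G :=
  List.mem_append_left _ (List.mem_map.2 ⟨i, hi, rfl⟩)

private theorem ABase_O (σ : Sel K n) (t : ℕ) (I : List ℕ) {J : List ℕ} (u : ℕ → Fm p) (G : ℕ → List (Fm p)) {j : ℕ}
    (hj : j ∈ J) (k : Bool) : σ.Oq t (G j) k ∈ σ.UU t I J u G := by
  cases k
  · exact List.mem_append_right _ (List.mem_append_right _ (List.mem_append_left _ (List.mem_map.2 ⟨j, hj, rfl⟩)))
  · exact List.mem_append_right _ (List.mem_append_left _ (List.mem_map.2 ⟨j, hj, rfl⟩))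

private theorem ABase_M (σ : Sel K n) (t : ℕ) (I : List ℕ) {J : List ℕ} (u : ℕ → Fm p) (G : ℕ → List (Fm p)) {j : ℕ}
    (hj : j ∈ J) : σ.Mq t (G j) ∈ σ.UU t I J u G :=
  List.mem_append_right _ (List.mem_append_right _ (List.mem_append_right _ (List.mem_map.2 ⟨j, hj, rfl⟩)))

private theorem ABase_cases (σ : Sel K n) (t : ℕ) (I J : List ℕ) (u : ℕ → Fm p) (G : ℕ → List (Fm p)) {g : Pt n → K}
    (hg : g ∈ σ.UU t I J u G) : (∃ i ∈ I, g = σ.h t (u i)) ∨ (∃ j ∈ J, ∃ k, g = σ.Oq t (G j) k) ∨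
      ∃ j ∈ J, g = σ.Mq t (G j) := by
  unfold Sel.UU at hg
  rcases List.mem_append.1 hg with h | h
  · obtain ⟨i, hi, h⟩ := List.mem_map.1 h
    exact Or.inl ⟨i, hi, h.symm⟩
  · rcases List.mem_append.1 h with h | h
    · obtain ⟨j, hj, h⟩ := List.mem_map.1 h
      exact Or.inr (Or.inl ⟨j, hj, true, h.symm⟩)
    · rcases List.mem_append.1 h with h | h
      · obtain ⟨j, hj, h⟩ := List.mem_map.1 h
        exact Or.inr (Or.inl ⟨j, hj, false, h.symm⟩)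
      · obtain ⟨j, hj, h⟩ := List.mem_map.1 h
        exact Or.inr (Or.inr ⟨j, hj, h.symm⟩)

theorem uu_nat [Fact p.Prime] [CharP K p] (σ : Sel K n) (t : ℕ) (I J : List ℕ) (u : ℕ → Fm p) (G : ℕ → List (Fm p)) :
    ∀ g ∈ σ.UU t I J u G, ∀ x, ∃ m : ℕ, g x = (m : K) := by
  intro g hg x
  rcases ABase_cases σ t I J u G hg with ⟨i, _, rfl⟩ | ⟨j, _, k, rfl⟩ | ⟨j, _, rfl⟩
  · exact ABase_nat (h_bv σ t (u i)) x
  · exact ABase_nat (pl_bv (h_bv σ t (cnL k (G j)))) x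
  · exact sum_nat σ t (G j) x

theorem uu_dg [Fact p.Prime] (σ : Sel K n) {t : ℕ} {d : ℕ} (ht : 1 ≤ t) {I J : List ℕ} {u : ℕ → Fm p}
    {G : ℕ → List (Fm p)} (hI : ∀ i ∈ I, (u i).dep 0 ≤ d) (hJ : ∀ j ∈ J, ∀ A ∈ G j, A.dep 0 ≤ d) :
    ∀ g ∈ σ.UU t I J u G, g ∈ Dg K n (t * (p * (t * p) ^ d)) := by
  intro g hg
  rcases ABase_cases σ t I J u G hg with ⟨i, hi, rfl⟩ | ⟨j, hj, k, rfl⟩ | ⟨j, hj, rfl⟩
  · exact Dg_mono (ABase_le ht) (deg_h σ ht (hI i hi))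
  · exact pl_dg (deg_cnL σ ht (hJ j hj) k)
  · refine listsum_dg _ fun g hg => ?_
    obtain ⟨A, hA, rfl⟩ := List.mem_map.1 hg
    exact Dg_mono (ABase_le ht) (deg_h σ ht (hJ j hj A hA))

theorem uu_length (σ : Sel K n) (t : ℕ) (I J : List ℕ) (u : ℕ → Fm p) (G : ℕ → List (Fm p)) :
    (σ.UU t I J u G).length = I.length + 3 * J.length := by
  unfold Sel.UU
  rw [List.length_append, List.length_append, List.length_append, List.length_map, List.length_map, List.length_map,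
    List.length_map]
  ring

private theorem ABase_ww (σ : Sel K n) (t : ℕ) {J : List ℕ} (G : ℕ → List (Fm p)) (x : Pt n) {j : ℕ} (hj : j ∈ J) :
    σ.ww t J G x j = rlw (fun k => σ.Oq t (G j) k x) (σ.Mq t (G j) x) (((G j).length : ℕ) : K) := by
  unfold Sel.ww
  rw [if_pos hj]

theorem vw_dt (σ : Sel K n) (t : ℕ) (I J : List ℕ) (u : ℕ → Fm p) (G : ℕ → List (Fm p)) {g : Pt n → K}
    (hg : ∀ x y, σ.vv t I u x = σ.vv t I u y → σ.ww t J G x = σ.ww t J G y → g x = g y) :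
    Dt (σ.UU t I J u G) g := by
  intro x y h
  refine hg x y ?_ ?_
  · funext i
    unfold Sel.vv
    by_cases hi : i ∈ I
    · rw [h _ (ABase_u σ t J u G hi)]
    · rw [if_neg fun h' => hi h'.1, if_neg fun h' => hi h'.1]
  · funext j
    by_cases hj : j ∈ J
    · rw [ABase_ww σ t G x hj, ABase_ww σ t G y hj]
      have hO : (fun k => σ.Oq t (G j) k x) = fun k => σ.Oq t (G j) k y := by
        funext k
        exact h _ (ABase_O σ t I u G hj k)
      rw [hO, h _ (ABase_M σ t I u G hj)]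
    · unfold Sel.ww
      rw [if_neg hj, if_neg hj]

private theorem ABase_det [Fact p.Prime] [CharP K p] (σ : Sel K n) {t d T : ℕ} (ht : 1 ≤ t) {I J : List ℕ} {u : ℕ → Fm p}
    {G : ℕ → List (Fm p)} (hI : ∀ i ∈ I, (u i).dep 0 ≤ d) (hJ : ∀ j ∈ J, ∀ A ∈ G j, A.dep 0 ≤ d)
    (hT : (I.length + 3 * J.length) * (p * (t * (p * (t * p) ^ d))) ≤ T) {g : Pt n → K} (hg : Dt (σ.UU t I J u G) g) :
    g ∈ Dg K n T := by
  refine Dg_mono ?_ (det_dg (p := p) (σ.UU t I J u G) (uu_nat σ t I J u G) (uu_dg σ ht hI hJ) hg)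
  rw [uu_length]
  exact hT

theorem vw_vw [Fact p.Prime] [CharP K p] (σ : Sel K n) {t d T : ℕ} (ht : 1 ≤ t) {I J : List ℕ} {u : ℕ → Fm p}
    {G : ℕ → List (Fm p)} (hI : ∀ i ∈ I, (u i).dep 0 ≤ d) (hJ : ∀ j ∈ J, ∀ A ∈ G j, A.dep 0 ≤ d)
    (hT : (I.length + 3 * J.length) * (p * (t * (p * (t * p) ^ d))) ≤ T) : VW K T (σ.vv t I u) (σ.ww t J G) := by
  intro g hg
  exact ABase_det σ ht hI hJ hT (vw_dt σ t I J u G hg)

theorem base_mv [Fact p.Prime] [CharP K p] (s : Slow K E n) (σ : Sel K n) {t d T : ℕ} (ht : 1 ≤ t) {f : E} (hf : f ∈ s.M 0) {I J : List ℕ}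
    {u : ℕ → Fm p} {G : ℕ → List (Fm p)} (hI : ∀ i ∈ I, (u i).dep 0 ≤ d) (hJ : ∀ j ∈ J, ∀ A ∈ G j, A.dep 0 ≤ d)
    (hT : (I.length + 3 * J.length) * (p * (t * (p * (t * p) ^ d))) ≤ T) (hT' : t * (p * (t * p) ^ d) ≤ T) (hL : 4 * T ≤ s.L)
    {i : ℕ} (hi : i ∈ I) : s.ClaimS σ t T f u G (σ.vv t I u) (σ.ww t J G) (.mv i) := by
  refine claim_single s σ hf u G _ _ (vw_vw σ ht hI hJ hT) hL (.mv i) (u i) (fun x => σ.vv t I u x i) rfl (fun _ => rfl)
    (Dg_mono ((ABase_le ht).trans hT') (deg_h σ ht (hI i hi))) ?_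
  have h : (σ.h t (u i) - fun x => if σ.vv t I u x i = true then (1 : K) else 0) = 0 := by
    funext x
    show σ.h t (u i) x - (if σ.vv t I u x i = true then (1 : K) else 0) = 0
    rcases h_bv σ t (u i) x with h | h
    · have h' : σ.vv t I u x i = false := by
        unfold Sel.vv
        rw [if_neg fun h' => h'.2 h]
      rw [h', h, if_neg Bool.false_ne_true, sub_zero]
    · have h' : σ.vv t I u x i = true := by
        unfold Sel.vv
        rw [if_pos ⟨hi, by rw [h]; exact one_ne_zero⟩]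
      rw [h', h, if_pos rfl, sub_self]
  rw [h]
  exact Z_zero s f

private theorem ABase_len (F : Fm p → Pt n → K) (l : List (Fm p)) :
    (fun _ : Pt n => ((l.length : ℕ) : K)) - (l.map F).sum = (l.map fun A => 1 - F A).sum := by
  induction l with
  | nil =>
    funext x
    simp
  | cons A l ih =>
    rw [List.map_cons, List.map_cons, List.sum_cons, List.sum_cons, ← ih]
    funext x
    simp only [List.length_cons, Pi.sub_apply, Pi.add_apply, Pi.one_apply, Nat.cast_add, Nat.cast_one]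
    ring

theorem good_kill [Fact p.Prime] [CharP K p] (s : Slow K E n) (σ : Sel K n) {t d T : ℕ} (ht : 1 ≤ t) {f : E} (hf : f ∈ s.M 0) {I J : List ℕ}
    {u : ℕ → Fm p} {G : ℕ → List (Fm p)} (hI : ∀ i ∈ I, (u i).dep 0 ≤ d) (hJ : ∀ j ∈ J, ∀ A ∈ G j, A.dep 0 ≤ d)
    (hT : (I.length + 3 * J.length) * (p * (t * (p * (t * p) ^ d))) ≤ T) (hT' : t * (p * (t * p) ^ d) ≤ T) (hL : 4 * T ≤ s.L)
    {j : ℕ} (hj : j ∈ J) (hR : ∀ k, s.RespS σ t f (cnL k (G j))) {D : Pt n → K} (hD : Dt (σ.UU t I J u G) D)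
    (h0 : ∀ x, (σ.Oq t (G j) true x = 0 → σ.Mq t (G j) x = 0) →
      (σ.Oq t (G j) false x = 0 → (((G j).length : ℕ) : K) = σ.Mq t (G j) x) → D x = 0) : s.Z f D := by
  classical
  have hL' : 3 * (t * (p * (t * p) ^ d)) ≤ s.L := by omega
  obtain ⟨B1, hB1⟩ : ∃ B1 : Pt n → K, B1 = (1 - σ.Oq t (G j) true) * σ.Mq t (G j) := ⟨_, rfl⟩
  obtain ⟨B2, hB2⟩ : ∃ B2 : Pt n → K, B2 = (1 - σ.Oq t (G j) false) *
      ((fun _ => (((G j).length : ℕ) : K)) - σ.Mq t (G j)) := ⟨_, rfl⟩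
  have hdO : ∀ k, σ.Oq t (G j) k ∈ Dg K n (t * (p * (t * p) ^ d)) := fun k => uu_dg σ ht hI hJ _ (ABase_O σ t I u G hj k)
  have hdM : σ.Mq t (G j) ∈ Dg K n (t * (p * (t * p) ^ d)) := uu_dg σ ht hI hJ _ (ABase_M σ t I u G hj)
  have hd1 : B1 ∈ Dg K n (t * (p * (t * p) ^ d) + t * (p * (t * p) ^ d)) := by
    rw [hB1]
    exact Dg_mul (Submodule.sub_mem _ (Dg_one _) (hdO true)) hdM
  have hd2 : B2 ∈ Dg K n (t * (p * (t * p) ^ d) + t * (p * (t * p) ^ d)) := by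
    rw [hB2]
    exact Dg_mul (Submodule.sub_mem _ (Dg_one _) (hdO false)) (Submodule.sub_mem _ (Dg_const _ _) hdM)
  have hZ1 : s.Z f B1 := by
    have h : B1 = ((G j).map fun A => (1 - σ.Oq t (G j) true) * σ.h t A).sum := by
      rw [hB1, List.sum_map_mul_left]
      rfl
    rw [h]
    refine Z_lsum s _ fun P hP => ?_
    obtain ⟨A, hA, rfl⟩ := List.mem_map.1 hP
    exact gate_mem s σ ht hf (hJ j hj) (hR true) hA hL'
  have hZ2 : s.Z f B2 := by
    have h : B2 = ((G j).map fun A => (1 - σ.Oq t (G j) false) * (1 - σ.h t A)).sum := by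
      rw [hB2, List.sum_map_mul_left, ← ABase_len]
      rfl
    rw [h]
    refine Z_lsum s _ fun P hP => ?_
    obtain ⟨A, hA, rfl⟩ := List.mem_map.1 hP
    exact gate_mem s σ ht hf (hJ j hj) (hR false) hA hL'
  have hD1 : Dt (σ.UU t I J u G) B1 := by
    rw [hB1]
    exact Dt_mul (Dt_sub Dt_one (Dt_mem (ABase_O σ t I u G hj true))) (Dt_mem (ABase_M σ t I u G hj))
  have hD2 : Dt (σ.UU t I J u G) B2 := by
    rw [hB2]
    exact Dt_mul (Dt_sub Dt_one (Dt_mem (ABase_O σ t I u G hj false)))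
      (Dt_sub (Dt_const _) (Dt_mem (ABase_M σ t I u G hj)))
  obtain ⟨c1, hc1⟩ : ∃ c1 : Pt n → K, c1 = fun x => if B1 x ≠ 0 then D x / B1 x else 0 := ⟨_, rfl⟩
  obtain ⟨c2, hc2⟩ : ∃ c2 : Pt n → K, c2 = fun x => if B1 x = 0 ∧ B2 x ≠ 0 then D x / B2 x else 0 := ⟨_, rfl⟩
  have hcD1 : Dt (σ.UU t I J u G) c1 := by
    intro x y h
    rw [hc1]
    show (if B1 x ≠ 0 then D x / B1 x else 0) = if B1 y ≠ 0 then D y / B1 y else 0
    rw [hD1 x y h, hD x y h]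
  have hcD2 : Dt (σ.UU t I J u G) c2 := by
    intro x y h
    rw [hc2]
    show (if B1 x = 0 ∧ B2 x ≠ 0 then D x / B2 x else 0) = if B1 y = 0 ∧ B2 y ≠ 0 then D y / B2 y else 0
    rw [hD1 x y h, hD2 x y h, hD x y h]
  have hdec : D = c1 * B1 + c2 * B2 := by
    funext x
    show D x = c1 x * B1 x + c2 x * B2 x
    rw [hc1, hc2]
    show D x = (if B1 x ≠ 0 then D x / B1 x else 0) * B1 x + (if B1 x = 0 ∧ B2 x ≠ 0 then D x / B2 x else 0) * B2 x
    by_cases h1 : B1 x = 0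
    · by_cases h2 : B2 x = 0
      · rw [h1, h2, mul_zero, mul_zero, add_zero]
        refine h0 x (fun h => ?_) (fun h => ?_)
        · have h3 : (1 - σ.Oq t (G j) true x) * σ.Mq t (G j) x = 0 := by
            rw [hB1] at h1
            exact h1
          rwa [h, sub_zero, one_mul] at h3
        · have h3 : (1 - σ.Oq t (G j) false x) * ((((G j).length : ℕ) : K) - σ.Mq t (G j) x) = 0 := by
            rw [hB2] at h2
            exact h2
          rw [h, sub_zero, one_mul] at h3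
          exact sub_eq_zero.1 h3
      · rw [if_neg (not_not.2 h1), if_pos ⟨h1, h2⟩, zero_mul, zero_add, div_mul_cancel₀ _ h2]
    · rw [if_pos h1, if_neg fun h => h1 h.1, div_mul_cancel₀ _ h1, zero_mul, add_zero]
  rw [hdec]
  exact Z_add s (Z_mul s hf (ABase_det σ ht hI hJ hT hcD1) hd1 hZ1 (by omega))
    (Z_mul s hf (ABase_det σ ht hI hJ hT hcD2) hd2 hZ2 (by omega))

private theorem ABase_rl [Fact p.Prime] [CharP K p] (σ : Sel K n) (t : ℕ) {J : List ℕ} (G : ℕ → List (Fm p)) {j : ℕ}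
    (hj : j ∈ J) {x : Pt n} (h1 : σ.Oq t (G j) true x = 0 → σ.Mq t (G j) x = 0)
    (h2 : σ.Oq t (G j) false x = 0 → (((G j).length : ℕ) : K) = σ.Mq t (G j) x) :
    Rl (fun k => σ.Oq t (G j) k x) (σ.Mq t (G j) x) (((G j).length : ℕ) : K) (σ.ww t J G x j) := by
  obtain ⟨a, ha⟩ : ∃ a : ℕ, σ.Mq t (G j) x = (a : K) := sum_nat σ t (G j) x
  have hex : ∃ w, Rl (fun k => σ.Oq t (G j) k x) (σ.Mq t (G j) x) (((G j).length : ℕ) : K) w := by
    rw [ha]
    refine Rl_ex (p := p) _ (fun k => pl_bv (h_bv σ t (cnL k (G j))) x) a _ (fun h => ?_) (fun h => ?_)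
    · rw [← ha]
      exact h1 h
    · rw [← ha]
      exact h2 h
  rw [ABase_ww σ t G x hj]
  unfold rlw
  rw [dif_pos hex]
  exact hex.choose_spec

theorem base_sq [Fact p.Prime] [CharP K p] (s : Slow K E n) (σ : Sel K n) {t d T : ℕ} (ht : 1 ≤ t) {f : E} (hf : f ∈ s.M 0) {I J : List ℕ}
    {u : ℕ → Fm p} {G : ℕ → List (Fm p)} (hI : ∀ i ∈ I, (u i).dep 0 ≤ d) (hJ : ∀ j ∈ J, ∀ A ∈ G j, A.dep 0 ≤ d)
    (hT : (I.length + 3 * J.length) * (p * (t * (p * (t * p) ^ d))) ≤ T) (hT' : t * (p * (t * p) ^ d) ≤ T) (hL : 4 * T ≤ s.L)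
    {j : ℕ} (hj : j ∈ J) (hR : ∀ k, s.RespS σ t f (cnL k (G j))) (hR' : ∀ A ∈ G j, s.RespS σ t f A) :
    s.ClaimS σ t T f u G (σ.vv t I u) (σ.ww t J G) (.sq j) := by
  have hL' : 3 * (t * (p * (t * p) ^ d)) ≤ s.L := by omega
  have hle : (t * p) ^ d ≤ t * (p * (t * p) ^ d) := ABase_le ht
  have hVW := vw_vw σ (K := K) (n := n) (t := t) ht hI hJ hT
  have hgk := fun {D : Pt n → K} (hD : Dt (σ.UU t I J u G) D) h0 =>
    good_kill s σ ht hf hI hJ hT hT' hL hj hR (D := D) hD h0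
  have hE : ∀ k, ∀ x y, σ.vv t I u x = σ.vv t I u y → σ.ww t J G x = σ.ww t J G y →
      Ea K (σ.vv t I u) (σ.ww t J G) (.sq j : Sch p) k x = Ea K (σ.vv t I u) (σ.ww t J G) (.sq j : Sch p) k y := by
    intro k x y h1 h2
    unfold Ea
    rw [h1, h2]
  have hdE : ∀ k, Ea K (σ.vv t I u) (σ.ww t J G) (.sq j : Sch p) k ∈ Dg K n T := fun k => hVW _ (hE k)
  have hdO : ∀ k, σ.Oq t (G j) k ∈ Dg K n T := fun k => Dg_mono hT' (uu_dg σ ht hI hJ _ (ABase_O σ t I u G hj k))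
  have hZE : ∀ k, s.Z f (σ.Oq t (G j) k - Ea K (σ.vv t I u) (σ.ww t J G) (.sq j : Sch p) k) := by
    intro k
    refine hgk (Dt_sub (Dt_mem (ABase_O σ t I u G hj k)) (vw_dt σ t I J u G (hE k))) fun x h1 h2 => ?_
    have h3 := Rl_ea (fun k => pl_bv (h_bv σ t (cnL k (G j))) x) (ABase_rl σ t G hj h1 h2) k
    show σ.Oq t (G j) k x - (if k ∈ (Sch.sq j : Sch p).ev (σ.vv t I u x) (σ.ww t J G x) then (1 : K) else 0) = 0
    have h4 : (Sch.sq j : Sch p).ev (σ.vv t I u x) (σ.ww t J G x) = σ.ww t J G x j := rfl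
    rw [h4, h3]
    exact sub_self _
  refine ⟨?_, ?_, ?_, ?_⟩
  · have hin : (Sch.sq j : Sch p).inst u G = G j := rfl
    rw [hin]
    refine hgk (Dt_sub (Dt_mem (ABase_M σ t I u G hj)) (vw_dt σ t I J u G fun x y h1 h2 => ?_)) fun x h1 h2 => ?_
    · unfold Ec
      rw [h1, h2]
    · have h3 := (ABase_rl σ t G hj h1 h2).2.1
      show σ.Mq t (G j) x - (((σ.ww t J G x j).count true : ℕ) : K) = 0
      rw [h3, sub_self]
  · have hin : (Sch.sq j : Sch p).inst u G = G j := rfl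
    rw [hin]
    refine hgk (Dt_sub (Dt_const _) (vw_dt σ t I J u G fun x y h1 h2 => ?_)) fun x h1 h2 => ?_
    · unfold El
      rw [h1, h2]
    · have h3 := (ABase_rl σ t G hj h1 h2).2.2
      show (((G j).length : ℕ) : K) - (((σ.ww t J G x j).length : ℕ) : K) = 0
      rw [h3, sub_self]
  · intro k A hA
    have hA' : A ∈ G j := hA
    have h1 : (1 - Ea K (σ.vv t I u) (σ.ww t J G) (.sq j : Sch p) k) * pl k (σ.h t A) =
        (1 - σ.Oq t (G j) k) * pl k (σ.h t A) +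
          pl k (σ.h t A) * (σ.Oq t (G j) k - Ea K (σ.vv t I u) (σ.ww t J G) (.sq j : Sch p) k) := by
      ring
    rw [h1]
    refine Z_add s (gate_mem s σ ht hf (hJ j hj) (hR k) hA' hL') ?_
    exact Z_mul s hf (pl_dg (deg_h σ ht (hJ j hj A hA'))) (Submodule.sub_mem _ (hdO k) (hdE k)) (hZE k) (by omega)
  · intro k P hP h
    have h1 : P * Ea K (σ.vv t I u) (σ.ww t J G) (.sq j : Sch p) k =
        P * σ.Oq t (G j) k - P * (σ.Oq t (G j) k - Ea K (σ.vv t I u) (σ.ww t J G) (.sq j : Sch p) k) := by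
      ring
    rw [h1]
    refine Z_sub s (gate_of_mem s σ ht hf (hJ j hj) hR' hP hT' hL h) ?_
    exact Z_mul s hf hP (Submodule.sub_mem _ (hdO k) (hdE k)) (hZE k) (by omega)

end PPh.Sd
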