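import Pool.Agent.H75.PP.SCon

/-!
helper75 (project MP_28250c_PP, block G6): SClause, adapted from H98/AF/AClause.lean with the selection sets as a parameter.
-/

set_option autoImplicit false
open Finset

namespace PPh.Sd

open ACpFrege

variable {K : Type} [Field K] {E : Type} [AddCommGroup E] [Module K E] {n : ℕ} {p : ℕ}

private theorem AClause_var_lt (σ : Sel K n) (t : ℕ) {x : ℕ} (hx : x < n) :
    σ.h t (.var x : Fm p) = mono K {⟨x, hx⟩} := by
  rw [h_var, mono_single]
  funext a
  rw [dif_pos hx]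

private theorem AClause_var_ge (σ : Sel K n) (t : ℕ) {x : ℕ} (hx : ¬ x < n) :
    σ.h t (.var x : Fm p) = 0 := by
  rw [h_var]
  funext a
  rw [dif_neg hx]
  rfl

private theorem AClause_var_dg (σ : Sel K n) (t : ℕ) (x : ℕ) : σ.h t (.var x : Fm p) ∈ Dg K n 1 := by
  by_cases hx : x < n
  · rw [AClause_var_lt σ t hx]
    exact mono_mem _ (by rw [Finset.card_singleton])
  · rw [AClause_var_ge σ t hx]
    exact Submodule.zero_mem _

theorem lit_dg (σ : Sel K n) (t : ℕ) (l : Lit) : σ.h t (litFm p l) ∈ Dg K n 1 := by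
  unfold litFm
  by_cases hb : l.2
  · rw [if_pos hb]
    exact AClause_var_dg σ t _
  · rw [if_neg hb, h_neg]
    exact Submodule.sub_mem _ (Dg_one _) (AClause_var_dg σ t _)

theorem lit_act (s : Slow K E n) (σ : Sel K n) (t : ℕ) (l : Lit) (m : E) : s.lit l m = s.act (1 - σ.h t (litFm p l)) m := by
  unfold litFm Slow.lit
  by_cases hx : l.1 < n
  · rw [dif_pos hx]
    by_cases hb : l.2
    · rw [if_pos hb, if_pos hb, AClause_var_lt σ t hx, act_sub, act_one, act_var]
      rfl
    · rw [if_neg hb, if_neg hb, h_neg, AClause_var_lt σ t hx, sub_sub_cancel, act_var]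
  · rw [dif_neg hx]
    by_cases hb : l.2
    · rw [if_pos hb, if_pos hb, AClause_var_ge σ t hx, sub_zero, act_one]
      rfl
    · rw [if_neg hb, if_neg hb, h_neg, AClause_var_ge σ t hx, sub_sub_cancel, act_zero]
      rfl

private theorem AClause_prod_dg (l : List (Pt n → K)) (hl : ∀ a ∈ l, a ∈ Dg K n 1) :
    (l.map fun a => 1 - a).prod ∈ Dg K n l.length := by
  induction l with
  | nil => exact Dg_one _
  | cons a l ih =>
    rw [List.map_cons, List.prod_cons, List.length_cons, Nat.add_comm l.length 1]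
    exact Dg_mul (Submodule.sub_mem _ (Dg_one _) (hl a List.mem_cons_self)) (ih fun b hb => hl b (List.mem_cons_of_mem _ hb))

theorem foldr_act (s : Slow K E n) (σ : Sel K n) (t : ℕ) {f : E} (hf : f ∈ s.M 0) (C : List Lit) (hC : C.length ≤ s.L) :
    C.foldr s.lit f = s.act ((C.map fun l => 1 - σ.h t (litFm p l)).prod) f ∧
      (C.map fun l => 1 - σ.h t (litFm p l)).prod ∈ Dg K n C.length := by
  induction C with
  | nil =>
    refine ⟨?_, Dg_one _⟩
    rw [List.foldr_nil, List.map_nil, List.prod_nil, act_one]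
    rfl
  | cons l C ih =>
    rw [List.length_cons] at hC
    obtain ⟨h1, h2⟩ := ih (by omega)
    have h3 : 1 - σ.h t (litFm p l) ∈ Dg K n 1 := Submodule.sub_mem _ (Dg_one _) (lit_dg σ t l)
    constructor
    · rw [List.foldr_cons, h1, lit_act (p := p) s σ t, List.map_cons, List.prod_cons]
      exact act_mul s hf h3 h2 (by omega)
    · rw [List.map_cons, List.prod_cons, List.length_cons, Nat.add_comm C.length 1]
      exact Dg_mul h3 h2

theorem split_list (s : Slow K E n) {f : E} (hf : f ∈ s.M 0) (l : List (Pt n → K)) (hl : ∀ a ∈ l, a ∈ Dg K n 1) {T : ℕ}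
    {P : Pt n → K} (hP : P ∈ Dg K n T) (hL : T + l.length + 1 ≤ s.L) (h1 : ∀ a ∈ l, s.Z f (P * a))
    (h2 : s.Z f (P * (l.map fun a => 1 - a).prod)) : s.Z f P := by
  induction l with
  | nil =>
    rw [List.map_nil, List.prod_nil, mul_one] at h2
    exact h2
  | cons a l ih =>
    rw [List.length_cons] at hL
    refine ih (fun b hb => hl b (List.mem_cons_of_mem _ hb)) (by omega) (fun b hb => h1 b (List.mem_cons_of_mem _ hb)) ?_
    have h3 : s.Z f ((l.map fun a => 1 - a).prod * (P * a)) :=
      Z_mul s hf (AClause_prod_dg l fun b hb => hl b (List.mem_cons_of_mem _ hb)) (Dg_mul hP (hl a List.mem_cons_self))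
        (h1 a List.mem_cons_self) (by omega)
    rw [List.map_cons, List.prod_cons] at h2
    have h4 : P * (l.map fun a => 1 - a).prod =
        P * ((1 - a) * (l.map fun a => 1 - a).prod) + (l.map fun a => 1 - a).prod * (P * a) := by ring
    rw [h4]
    exact Z_add s h2 h3

theorem clause_ok [Fact p.Prime] [CharP K p] (s : Slow K E n) (σ : Sel K n) {t T : ℕ} {f : E} (hf : f ∈ s.M 0) (C : List Lit)
    (hC : C.foldr s.lit f = 0) (hR : s.RespS σ t f (clauseFm C : Fm p)) (hP : σ.h t (clauseFm C : Fm p) ∈ Dg K n T)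
    (hL : T + C.length + 1 ≤ s.L) : s.Z f (1 - σ.h t (clauseFm C : Fm p)) := by
  have hPd : 1 - σ.h t (clauseFm C : Fm p) ∈ Dg K n T := Submodule.sub_mem _ (Dg_one _) hP
  obtain ⟨h1, h2⟩ := foldr_act (p := p) s σ t hf C (by omega)
  have h3 : s.Z f ((C.map fun l => 1 - σ.h t (litFm p l)).prod) := by
    unfold Slow.Z
    rw [← h1, hC]
  refine split_list s hf (C.map fun l => σ.h t (litFm p l)) ?_ hPd (by rw [List.length_map]; exact hL) ?_ ?_
  · intro a ha
    obtain ⟨l, _, rfl⟩ := List.mem_map.1 ha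
    exact lit_dg σ t l
  · intro a ha
    obtain ⟨l, hl, rfl⟩ := List.mem_map.1 ha
    have h4 : σ.h t (litFm p l) ∈ σ.fl t true (C.map fun l => if l.2 then (.var l.1 : Fm p) else .neg (.var l.1)) := by
      rw [mem_fl]
      refine ⟨litFm p l, List.mem_map.2 ⟨l, hl, rfl⟩, ?_⟩
      unfold litFm
      by_cases hb : l.2
      · rw [if_pos hb, hl_var]
        exact List.mem_singleton.2 rfl
      · rw [if_neg hb, hl_neg, h_neg]
        exact List.mem_singleton.2 rfl
    have h5 := resp_cnL s σ t f true _ hR h4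
    exact h5
  · rw [List.map_map]
    exact Z_mul s hf hPd h2 h3 (by omega)

end PPh.Sd
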