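import Pool.Agent.H75.PP.SDeg

/-!
helper75 (project MP_28250c_PP, block G6): SComb, adapted from H98/AF/AComb.lean with the selection sets as a parameter.
-/

set_option autoImplicit false
open Finset

namespace PPh.Sd

open ACpFrege

variable {K : Type} [Field K] {E : Type} [AddCommGroup E] [Module K E] {n : ℕ} {p : ℕ}

theorem gv_comb [Fact p.Prime] (σ : Sel K n) (t : ℕ) {δ : ℕ} (k : Bool) (l : List (Pt n → K)) (hl : ∀ g ∈ l, g ∈ Dg K n δ) :
    ∃ c : ℕ → Pt n → K, (∀ i, c i ∈ Dg K n (t * (p * δ))) ∧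
      pl k (σ.gv p t k l) = ∑ i : Fin l.length, c i * pl k (l.get i) := by
  have hI : ∀ j, σ.sl k l j ⊆ Finset.range l.length := by
    intro j
    exact σ.sub k l j
  have hb : ∀ i, fam k l i ∈ Dg K n δ := by
    intro i
    by_cases h : i < l.length
    · rw [fam_eq k l i h]
      exact pl_dg (hl _ (List.getElem_mem h))
    · have h0 : fam k l i = 0 := by
        unfold fam
        rw [dif_neg h]
      rw [h0]
      exact Submodule.zero_mem _
  obtain ⟨c, hc, hsum⟩ := hprod_comb (p := p) (t := t) (σ.sl k l) hI (fam k l) hb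
  refine ⟨c, hc, ?_⟩
  rw [pl_gv, hsum, Finset.sum_range]
  refine Finset.sum_congr rfl fun i _ => ?_
  rw [fam_eq k l i i.2]
  rfl

theorem gv_mem_comb [Fact p.Prime] (σ : Sel K n) (t : ℕ) {δ : ℕ} (k : Bool) (l : List (Pt n → K))
    (hl : ∀ g ∈ l, g ∈ Dg K n δ) (φ : (Pt n → K) →+ E) (hφ : ∀ g ∈ l, ∀ c ∈ Dg K n (t * (p * δ)), φ (c * pl k g) = 0) :
    φ (pl k (σ.gv p t k l)) = 0 := by
  obtain ⟨c, hc, hsum⟩ := gv_comb (p := p) σ t k l hl
  rw [hsum, map_sum]
  exact Finset.sum_eq_zero fun i _ => hφ _ (List.get_mem l i) _ (hc i)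

end PPh.Sd
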