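import Pool.Agent.H75.PP.SComb
import Pool.Agent.H65.AF.AAct

/-!
helper75 (project MP_28250c_PP, block G6): SCon, adapted from H98/AF/ACon.lean with the selection sets as a parameter.
-/

set_option autoImplicit false
open Finset

namespace PPh.Sd

open ACpFrege

variable {K : Type} [Field K] {E : Type} [AddCommGroup E] [Module K E] {n : ℕ} {p : ℕ}

private theorem ACon_le [Fact p.Prime] {t d : ℕ} (ht : 1 ≤ t) : (t * p) ^ d ≤ t * (p * (t * p) ^ d) := by
  have h1 : 1 ≤ p := (Fact.out : p.Prime).one_lt.le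
  calc (t * p) ^ d = 1 * (1 * (t * p) ^ d) := by ring
    _ ≤ t * (p * (t * p) ^ d) := Nat.mul_le_mul ht (Nat.mul_le_mul_right _ h1)

/-- The additive map `Q ↦ act (P * Q) f`. -/
private noncomputable def ACon_phi (s : Slow K E n) (f : E) (P : Pt n → K) : (Pt n → K) →+ E where
  toFun Q := s.act (P * Q) f
  map_zero' := by rw [mul_zero, act_zero]; rfl
  map_add' Q R := by rw [mul_add, act_add, LinearMap.add_apply]

theorem gate_mem [Fact p.Prime] [CharP K p] (s : Slow K E n) (σ : Sel K n) {t d : ℕ} (ht : 1 ≤ t) {f : E} (hf : f ∈ s.M 0) {k : Bool}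
    {l : List (Fm p)} (hl : ∀ A ∈ l, A.dep 0 ≤ d) (hR : s.RespS σ t f (cnL k l)) {A : Fm p} (hA : A ∈ l)
    (hL : 3 * (t * (p * (t * p) ^ d)) ≤ s.L) : s.Z f ((1 - pl k (σ.h t (cnL k l))) * pl k (σ.h t A)) := by
  rcases hl_cases σ t k A with h1 | ⟨l', rfl⟩
  · refine resp_cnL s σ t f k l hR ((mem_fl σ t k l _).2 ⟨A, hA, ?_⟩)
    rw [h1]
    exact List.mem_singleton.2 rfl
  · have hle := ACon_le (p := p) (d := d) ht
    have hdeg : ∀ g ∈ σ.fl t k l', g ∈ Dg K n ((t * p) ^ d) := fun g hg =>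
      deg_hl σ ht (hl _ hA) k g (by rw [hl_cnL]; exact hg)
    have hG : pl k (σ.h t (cnL k l)) ∈ Dg K n (t * (p * (t * p) ^ d)) := pl_dg (deg_cnL σ ht hl k)
    have hG' : 1 - pl k (σ.h t (cnL k l)) ∈ Dg K n (t * (p * (t * p) ^ d)) := Submodule.sub_mem _ (Dg_one _) hG
    have key := gv_mem_comb (p := p) σ t k (σ.fl t k l') hdeg (ACon_phi s f (1 - pl k (σ.h t (cnL k l)))) (by
      intro g hg c hc
      have hgl : g ∈ σ.fl t k l := (mem_fl σ t k l g).2 ⟨_, hA, by rw [hl_cnL]; exact hg⟩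
      have h2 := resp_cnL s σ t f k l hR hgl
      have h3 : s.Z f (c * ((1 - pl k (σ.h t (cnL k l))) * pl k g)) :=
        Z_mul s hf hc (Dg_mul hG' (pl_dg (hdeg g hg))) h2 (by omega)
      have h4 : (1 - pl k (σ.h t (cnL k l))) * (c * pl k g) = c * ((1 - pl k (σ.h t (cnL k l))) * pl k g) := by ring
      show s.act ((1 - pl k (σ.h t (cnL k l))) * (c * pl k g)) f = 0
      rw [h4]
      exact h3)
    rw [h_cnL σ t k l']
    exact key

theorem gate_of_mem [Fact p.Prime] [CharP K p] (s : Slow K E n) (σ : Sel K n) {t d T : ℕ} (ht : 1 ≤ t) {f : E} (hf : f ∈ s.M 0) {k : Bool}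
    {l : List (Fm p)} (hl : ∀ A ∈ l, A.dep 0 ≤ d) (hR : ∀ A ∈ l, s.RespS σ t f A) {P : Pt n → K} (hP : P ∈ Dg K n T)
    (hT : t * (p * (t * p) ^ d) ≤ T) (hL : 4 * T ≤ s.L) (h : ∀ A ∈ l, s.Z f (P * pl k (σ.h t A))) :
    s.Z f (P * pl k (σ.h t (cnL k l))) := by
  have hle := ACon_le (p := p) (d := d) ht
  have hdeg : ∀ g ∈ σ.fl t k l, g ∈ Dg K n ((t * p) ^ d) := deg_fl σ ht hl k
  have claim : ∀ g ∈ σ.fl t k l, s.Z f (P * pl k g) := by
    intro g hg
    obtain ⟨A, hA, hgA⟩ := (mem_fl σ t k l g).1 hg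
    rcases hl_cases σ t k A with h1 | ⟨l', rfl⟩
    · rw [h1, List.mem_singleton] at hgA
      rw [hgA]
      exact h A hA
    · rw [hl_cnL] at hgA
      have hAd := deg_h σ ht (hl _ hA)
      have h2 := resp_cnL s σ t f k l' (hR _ hA) hgA
      have hg' := pl_dg (k := k) (hdeg g hg)
      have hA' := pl_dg (k := k) hAd
      have h3 : s.Z f (P * ((1 - pl k (σ.h t (cnL k l'))) * pl k g)) :=
        Z_mul s hf hP (Dg_mul (Submodule.sub_mem _ (Dg_one _) hA') hg') h2 (by omega)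
      have h4 : s.Z f (pl k g * (P * pl k (σ.h t (cnL k l')))) :=
        Z_mul s hf hg' (Dg_mul hP hA') (h _ hA) (by omega)
      have h5 : P * pl k g = P * ((1 - pl k (σ.h t (cnL k l'))) * pl k g) + pl k g * (P * pl k (σ.h t (cnL k l'))) := by
        ring
      rw [h5]
      exact Z_add s h3 h4
  have key := gv_mem_comb (p := p) σ t k (σ.fl t k l) hdeg (ACon_phi s f P) (by
    intro g hg c hc
    have h3 : s.Z f (c * (P * pl k g)) := Z_mul s hf hc (Dg_mul hP (pl_dg (hdeg g hg))) (claim g hg) (by omega)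
    have h4 : P * (c * pl k g) = c * (P * pl k g) := by ring
    show s.act (P * (c * pl k g)) f = 0
    rw [h4]
    exact h3)
  rw [h_cnL σ t k l]
  exact key

end PPh.Sd
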