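import Pool.Agent.H98.AF.AClause
import Pool.Agent.H98.AF.ASound

/-!
helper75 (project MP_28250c_PP, block G6): the value functions of formulas for an arbitrary choice of the selection sets (adapted from
H65/AF/ADefs.lean and H98/AF/SDefs.lean of helper65 and helper98, where the selection comes from the filtered module).
-/

set_option autoImplicit false
open Finset

namespace PPh.Sd

open ACpFrege

/-- Selection sets: for every list of functions and `k` (`true`: disjunction) the sets `sl k l 0, sl k l 1, ..` of indices. -/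
structure Sel (K : Type) (n : ℕ) where
  sl : Bool → List (Pt n → K) → ℕ → Finset ℕ
  sub : ∀ k l j, sl k l j ⊆ Finset.range l.length

variable {K : Type} [Field K] {E : Type} [AddCommGroup E] [Module K E] {n : ℕ}

/-- The approximating function of the disjunction (`k = true`) or conjunction (`k = false`) of a list of functions. -/
noncomputable def Sel.gv (σ : Sel K n) (p t : ℕ) (k : Bool) (l : List (Pt n → K)) : Pt n → K :=
  if k then 1 - hprod p t (σ.sl k l) (fam k l) else hprod p t (σ.sl k l) (fam k l)

/-- The approximating function of a formula, and the list of the functions of its members when it is seen as a disjunction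
(`true`) or as a conjunction (`false`): nested disjunctions (conjunctions) are flattened. Variables with index `≥ n` are 0. -/
noncomputable def Sel.hv (σ : Sel K n) {p : ℕ} (t : ℕ) : Fm p → (Pt n → K) × (Bool → List (Pt n → K))
  | .var x => (fun a => if h : x < n then (if a ⟨x, h⟩ then 1 else 0) else 0,
      fun _ => [fun a => if h : x < n then (if a ⟨x, h⟩ then 1 else 0) else 0])
  | .neg A => (1 - (σ.hv t A).1, fun _ => [1 - (σ.hv t A).1])
  | .cn k _ A =>
      (σ.gv p t k (List.ofFn fun i => (σ.hv t (A i)).2 k).flatten,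
        fun k' => if k' = k then (List.ofFn fun i => (σ.hv t (A i)).2 k).flatten
          else [σ.gv p t k (List.ofFn fun i => (σ.hv t (A i)).2 k).flatten])
  | .md r _ A => (fun a => 1 - (∑ i, (σ.hv t (A i)).1 a - ((r.val : ℕ) : K)) ^ (p - 1),
      fun _ => [fun a => 1 - (∑ i, (σ.hv t (A i)).1 a - ((r.val : ℕ) : K)) ^ (p - 1)])

/-- The approximating function. -/
noncomputable def Sel.h (σ : Sel K n) {p : ℕ} (t : ℕ) (A : Fm p) : Pt n → K := (σ.hv t A).1

/-- The members of a formula seen as a disjunction (conjunction). -/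
noncomputable def Sel.hl (σ : Sel K n) {p : ℕ} (t : ℕ) (k : Bool) (A : Fm p) : List (Pt n → K) := (σ.hv t A).2 k

/-- The flattened members (values) of the disjunction or conjunction of the list `l`. -/
noncomputable def Sel.fl (σ : Sel K n) {p : ℕ} (t : ℕ) (k : Bool) (l : List (Fm p)) : List (Pt n → K) :=
  (l.map (σ.hl t k)).flatten

/-- The vector `f` respects the gate `A` (a disjunction or conjunction): it is killed by (1 - value) * member for a disjunction and
by value * (1 - member) for a conjunction. -/
def _root_.ACpFrege.Slow.RespS (s : Slow K E n) (σ : Sel K n) {p : ℕ} (t : ℕ) (f : E) : Fm p → Prop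
  | .cn k _ A => ∀ g ∈ (List.ofFn fun i => σ.hl t k (A i)).flatten,
      if k then s.Z f ((1 - σ.gv p t k (List.ofFn fun i => σ.hl t k (A i)).flatten) * g)
      else s.Z f (σ.gv p t k (List.ofFn fun i => σ.hl t k (A i)).flatten * (1 - g))
  | _ => True

/-- All subformulas of `A` are respected by `f` and have depth at most `d`. -/
def _root_.ACpFrege.Slow.OkS (s : Slow K E n) (σ : Sel K n) {p : ℕ} (t d : ℕ) (f : E) (A : Fm p) : Prop :=
  ∀ B ∈ A.subs, s.RespS σ t f B ∧ B.dep 0 ≤ d

/-- The values of the members of the instance of the scheme `S` agree on `f` with the values of the scheme under `v`, `w`: number of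
true members, number of members, occurrence of `k` (two directions). -/
def _root_.ACpFrege.Slow.ClaimS (s : Slow K E n) (σ : Sel K n) {p : ℕ} (t T : ℕ) (f : E) (u : ℕ → Fm p) (G : ℕ → List (Fm p))
    (v : Pt n → ℕ → Bool) (w : Pt n → ℕ → List Bool) (S : Sch p) : Prop :=
  s.Z f (((S.inst u G).map (σ.h t)).sum - Ec K v w S) ∧
  s.Z f ((fun _ => (((S.inst u G).length : ℕ) : K)) - El K v w S) ∧
  (∀ k, ∀ A ∈ S.inst u G, s.Z f ((1 - Ea K v w S k) * pl k (σ.h t A))) ∧
  (∀ k, ∀ P ∈ Dg K n T, (∀ A ∈ S.inst u G, s.Z f (P * pl k (σ.h t A))) → s.Z f (P * Ea K v w S k))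

/-- The values of the sequence `l` of formulas: `O k` is the occurrence of `k`. -/
noncomputable def Sel.Oq (σ : Sel K n) {p : ℕ} (t : ℕ) (l : List (Fm p)) (k : Bool) : Pt n → K := pl k (σ.h t (cnL k l))

/-- The sum of the values of the sequence. -/
noncomputable def Sel.Mq (σ : Sel K n) {p : ℕ} (t : ℕ) (l : List (Fm p)) : Pt n → K := (l.map (σ.h t)).sum

open Classical in
/-- The truth value of the metavariable `i` at the point `x`. -/
noncomputable def Sel.vv (σ : Sel K n) {p : ℕ} (t : ℕ) (I : List ℕ) (u : ℕ → Fm p) (x : Pt n) (i : ℕ) : Bool :=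
  if i ∈ I ∧ σ.h t (u i) x ≠ 0 then true else false

open Classical in
/-- The truth values of the sequence variable `j` at the point `x`. -/
noncomputable def Sel.ww (σ : Sel K n) {p : ℕ} (t : ℕ) (J : List ℕ) (G : ℕ → List (Fm p)) (x : Pt n) (j : ℕ) : List Bool :=
  if j ∈ J then rlw (fun k => σ.Oq t (G j) k x) (σ.Mq t (G j) x) (((G j).length : ℕ) : K) else []

/-- The base values of a rule instance. -/
noncomputable def Sel.UU (σ : Sel K n) {p : ℕ} (t : ℕ) (I J : List ℕ) (u : ℕ → Fm p) (G : ℕ → List (Fm p)) : List (Pt n → K) :=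
  I.map (fun i => σ.h t (u i)) ++ (J.map (fun j => σ.Oq t (G j) true) ++ (J.map (fun j => σ.Oq t (G j) false) ++
    J.map (fun j => σ.Mq t (G j))))

end PPh.Sd
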