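import Pool.Agent.H75.PP.SSchCn
import Pool.Agent.H75.PP.SSchMd

/-!
helper75 (project MP_28250c_PP, block G6): SSchAll, adapted from H98/AF/ASchAll.lean with the selection sets as a parameter.
-/

set_option autoImplicit false
open Finset

namespace PPh.Sd

open ACpFrege

variable {K : Type} [Field K] {E : Type} [AddCommGroup E] [Module K E] {n : ℕ} {p : ℕ}

theorem claim_all [Fact p.Prime] [CharP K p] (s : Slow K E n) (σ : Sel K n) {t d T : ℕ} (ht : 1 ≤ t) {f : E} (hf : f ∈ s.M 0)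
    (u : ℕ → Fm p) (G : ℕ → List (Fm p)) (v : Pt n → ℕ → Bool) (w : Pt n → ℕ → List Bool) (hD : VW K T v w)
    (hT : t * (p * (t * p) ^ d) ≤ T) (hL : 4 * T ≤ s.L) (S : Sch p) (hok : ∀ A ∈ S.inst u G, s.OkS σ t d f A)
    (hmv : ∀ i ∈ S.mvs, s.ClaimS σ t T f u G v w (.mv i)) (hsq : ∀ j ∈ S.sqs, s.ClaimS σ t T f u G v w (.sq j)) :
    s.ClaimS σ t T f u G v w S := by
  induction S with
  | mv i => exact hmv i (by simp [Sch.mvs])
  | sq j => exact hsq j (by simp [Sch.sqs])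
  | neg S ih =>
    refine claim_neg s σ hf u G v w S (ih (fun A hA => ?_) hmv hsq)
    have h1 := hok (.neg A) (by rw [inst_neg]; exact List.mem_map_of_mem hA)
    exact fun B hB => h1 B (subs_trans subs_mem_neg hB)
  | cn k m S ih =>
    refine claim_cn s σ ht hf u G v w hD hT hL k m S hok fun i => ih i (fun A hA => ?_) (fun j hj => ?_) (fun j hj => ?_)
    · have h1 := hok _ (by rw [inst_cn]; exact List.mem_singleton_self _)
      exact fun B hB => h1 B (subs_trans (subs_mem_cnL (List.mem_flatten.mpr ⟨_, List.mem_ofFn.mpr ⟨i, rfl⟩, hA⟩)) hB)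
    · exact hmv j (List.mem_flatten.mpr ⟨_, List.mem_ofFn.mpr ⟨i, rfl⟩, hj⟩)
    · exact hsq j (List.mem_flatten.mpr ⟨_, List.mem_ofFn.mpr ⟨i, rfl⟩, hj⟩)
  | md r m S ih =>
    refine claim_md s σ ht hf u G v w hD hT hL r m S hok fun i => ih i (fun A hA => ?_) (fun j hj => ?_) (fun j hj => ?_)
    · have h1 := hok _ (by rw [inst_md]; exact List.mem_singleton_self _)
      exact fun B hB => h1 B (subs_trans (subs_mem_mdL (List.mem_flatten.mpr ⟨_, List.mem_ofFn.mpr ⟨i, rfl⟩, hA⟩)) hB)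
    · exact hmv j (List.mem_flatten.mpr ⟨_, List.mem_ofFn.mpr ⟨i, rfl⟩, hj⟩)
    · exact hsq j (List.mem_flatten.mpr ⟨_, List.mem_ofFn.mpr ⟨i, rfl⟩, hj⟩)

end PPh.Sd
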