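import Pool.Agent.H75.PP.SRule
import Pool.Agent.H75.PP.SClause

/-!
helper75 (project MP_28250c_PP, block G6): soundness. `gates_exS`: the gates of a refutation; `fl_card`: a gate has at most `psize π`
different member functions; `clause_okP`: clauses of variables whose sum acts as 1; `sound`: if a vector of `M 0` respects all gates
and all input clauses have the value 1 on it then it is zero.
-/

set_option autoImplicit false
open Finset

namespace PPh.Sd

open ACpFrege

variable {K : Type} [Field K] {E : Type} [AddCommGroup E] [Module K E] {n : ℕ} {p : ℕ}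

theorem bot_val [Fact p.Prime] (σ : Sel K n) (t : ℕ) : σ.h t (cnL true [] : Fm p) = 0 := by
  rw [h_cnL]
  have h1 : σ.fl t true ([] : List (Fm p)) = [] := rfl
  rw [h1]
  unfold Sel.gv
  rw [if_pos rfl]
  have h2 : ∀ i, fam true ([] : List (Pt n → K)) i = 0 := fun i => rfl
  have hp : p - 1 ≠ 0 := by
    have := (Fact.out : p.Prime).two_le
    omega
  unfold hprod
  rw [Finset.prod_eq_one, sub_self]
  intro j _
  rw [Finset.sum_eq_zero (fun i _ => h2 i), zero_pow hp, sub_zero]

private theorem SSound_size_pos {p : ℕ} (A : Fm p) : 1 ≤ A.size := by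
  rw [← subs_length]
  exact List.length_pos_of_mem (subs_self A)

theorem sysC_le {p : ℕ} {S : List (Rule p)} {R : Rule p} (hR : R ∈ S) :
    R.mvs.length + 3 * R.sqs.length ≤ sysC S := by
  unfold sysC
  have h1 : R.mvs.length + 3 * R.sqs.length ∈ S.map fun R : Rule p => R.mvs.length + 3 * R.sqs.length :=
    List.mem_map.2 ⟨R, hR, rfl⟩
  have h2 := List.single_le_sum (l := S.map fun R : Rule p => R.mvs.length + 3 * R.sqs.length) (fun x _ => Nat.zero_le x) _ h1
  omega

theorem sysC_pos {p : ℕ} (S : List (Rule p)) : 1 ≤ sysC S := by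
  unfold sysC
  omega

/-- The member functions are values of subformulas. -/
theorem hl_sub (σ : Sel K n) (t : ℕ) (A : Fm p) : ∀ k, ∀ g ∈ σ.hl t k A, ∃ B ∈ A.subs, g = σ.h t B := by
  revert A
  refine indL ?_ ?_ ?_ ?_
  · intro x k g hg
    rw [hl_var, List.mem_singleton] at hg
    exact ⟨_, subs_self _, hg⟩
  · intro A _ k g hg
    rw [hl_neg, List.mem_singleton] at hg
    exact ⟨_, subs_self _, by rw [hg, h_neg]⟩
  · intro k l ih k' g hg
    by_cases hk : k' = k
    · subst hk
      rw [hl_cnL] at hg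
      obtain ⟨A, hA, hgA⟩ := (mem_fl σ t k' l g).1 hg
      obtain ⟨B, hB, h⟩ := ih A hA k' g hgA
      exact ⟨B, subs_trans (subs_mem_cnL hA) hB, h⟩
    · rcases hl_cases σ t k' (cnL k l) with h | ⟨l', h⟩
      · rw [h, List.mem_singleton] at hg
        exact ⟨_, subs_self _, hg⟩
      · exact absurd (cnL_inj h).1.symm hk
  · intro r l _ k g hg
    rcases hl_cases σ t k (mdL r l) with h | ⟨l', h⟩
    · rw [h, List.mem_singleton] at hg
      exact ⟨_, subs_self _, hg⟩
    · exact absurd h (by simp [mdL, cnL])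

open Classical in
/-- A gate has few different member functions. -/
theorem fl_card (σ : Sel K n) (t : ℕ) (k : Bool) (l : List (Fm p)) (π : List (Fm p))
    (h : ∀ A ∈ l, ∃ B ∈ π, A ∈ B.subs) : (σ.fl t k l).toFinset.card ≤ psize π := by
  have h1 : (σ.fl t k l).toFinset ⊆ (((π.map Fm.subs).flatten).map (σ.h t)).toFinset := by
    intro g hg
    rw [List.mem_toFinset] at hg ⊢
    obtain ⟨A, hA, hgA⟩ := (mem_fl σ t k l g).1 hg
    obtain ⟨C, hC, rfl⟩ := hl_sub σ t A k g hgA
    obtain ⟨B, hB, hAB⟩ := h A hA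
    exact List.mem_map.2 ⟨C, List.mem_flatten.2 ⟨B.subs, List.mem_map.2 ⟨B, hB, rfl⟩, subs_trans hAB hC⟩, rfl⟩
  refine (Finset.card_le_card h1).trans ((List.toFinset_card_le _).trans ?_)
  rw [List.length_map]
  unfold psize
  rw [List.length_flatten, List.map_map]
  refine le_of_eq ?_
  congr 1
  refine List.map_congr_left fun A _ => ?_
  exact subs_length A

/-- The auxiliary gates and all subformulas of a refutation: a list of formulas. -/
theorem gates_exS {p : ℕ} (S : List (Rule p)) (d : ℕ) (F : CNF) (π : List (Fm p)) (hπ : Refutes S d F π) :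
    ∃ Λ : List (Fm p), Λ.length ≤ 3 * sysC S * psize π ∧ (∀ A ∈ π, ∀ B ∈ A.subs, B ∈ Λ) ∧
      (∀ k l, cnL k l ∈ Λ → ∀ A ∈ l, ∃ B ∈ π, A ∈ B.subs) ∧
      ∀ (i : ℕ) (h : i < π.length), (∃ C ∈ F, π[i] = clauseFm C) ∨
        ∃ R ∈ S, ∃ (u : ℕ → Fm p) (G : ℕ → List (Fm p)), R.concl.inst u G = [π[i]] ∧
          (∀ P ∈ R.prem, ∀ B ∈ P.inst u G, B ∈ π.take i) ∧ ∀ j ∈ R.sqs, ∀ k, cnL k (G j) ∈ Λ := by
  obtain ⟨hd, hst, _⟩ := hπ
  have key : ∀ i : Fin π.length, ∃ aux : List (Fm p), aux.length ≤ 2 * sysC S ∧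
      (∀ k l, cnL k l ∈ aux → ∀ A ∈ l, ∃ B ∈ π, A ∈ B.subs) ∧
      ((∃ C ∈ F, π[i] = clauseFm C) ∨
        ∃ R ∈ S, ∃ (u : ℕ → Fm p) (G : ℕ → List (Fm p)), R.concl.inst u G = [π[i]] ∧
          (∀ P ∈ R.prem, ∀ B ∈ P.inst u G, B ∈ π.take i) ∧ ∀ j ∈ R.sqs, ∀ k, cnL k (G j) ∈ aux) := by
    intro i
    have hi : π[i] ∈ π := List.getElem_mem i.2
    rcases hst i i.2 with h | ⟨R, hR, u, G, h1, h2⟩
    · exact ⟨[], Nat.zero_le _, fun k l h' => absurd h' List.not_mem_nil, Or.inl h⟩
    · refine ⟨R.sqs.flatMap fun j => [cnL true (G j), cnL false (G j)], ?_, ?_, Or.inr ⟨R, hR, u, G, h1, h2, ?_⟩⟩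
      · have h3 := sysC_le hR
        rw [List.length_flatMap]
        simp only [List.length_cons, List.length_nil, List.map_const', List.sum_replicate, smul_eq_mul]
        omega
      · intro k l h' A hA
        rw [List.mem_flatMap] at h'
        obtain ⟨j, hj, h'⟩ := h'
        have hl : l = G j := by
          simp only [List.mem_cons, List.not_mem_nil, or_false] at h'
          rcases h' with h' | h'
          · exact (cnL_inj h').2
          · exact (cnL_inj h').2
        rw [hl] at hA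
        unfold Rule.sqs at hj
        rw [List.mem_append] at hj
        rcases hj with hj | hj
        · obtain ⟨B, hB, hAB⟩ := sqs_sub u G R.concl hj hA
          rw [h1, List.mem_singleton] at hB
          rw [hB] at hAB
          exact ⟨_, hi, hAB⟩
        · rw [List.mem_flatten] at hj
          obtain ⟨L, hL, hj⟩ := hj
          rw [List.mem_map] at hL
          obtain ⟨P, hP, rfl⟩ := hL
          obtain ⟨B, hB, hAB⟩ := sqs_sub u G P hj hA
          exact ⟨B, List.mem_of_mem_take (h2 P hP B hB), hAB⟩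
      · intro j hj k
        rw [List.mem_flatMap]
        refine ⟨j, hj, ?_⟩
        cases k <;> simp
  choose aux ha1 ha2 ha3 using key
  refine ⟨(π.map Fm.subs).flatten ++ (List.ofFn aux).flatten, ?_, ?_, ?_, ?_⟩
  · have hsz : π.length ≤ psize π := by
      unfold psize
      have h1 := List.length_le_sum_of_one_le (π.map Fm.size) (by
        intro i hi
        rw [List.mem_map] at hi
        obtain ⟨A, _, rfl⟩ := hi
        exact SSound_size_pos A)
      rw [List.length_map] at h1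
      exact h1
    have h1 : ((π.map Fm.subs).flatten).length = psize π := by
      unfold psize
      rw [List.length_flatten, List.map_map]
      congr 1
      refine List.map_congr_left fun A _ => ?_
      exact subs_length A
    have h2 : ((List.ofFn aux).flatten).length ≤ π.length * (2 * sysC S) := by
      rw [List.length_flatten, List.map_ofFn, List.sum_ofFn]
      refine (Finset.sum_le_card_nsmul Finset.univ _ (2 * sysC S) fun i _ => ha1 i).trans ?_
      rw [Finset.card_univ, Fintype.card_fin, smul_eq_mul]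
    rw [List.length_append, h1]
    have h3 : π.length * (2 * sysC S) ≤ psize π * (2 * sysC S) := Nat.mul_le_mul_right _ hsz
    have h4 : psize π ≤ psize π * sysC S := Nat.le_mul_of_pos_right _ (sysC_pos S)
    have h5 : 3 * sysC S * psize π = psize π * sysC S + psize π * (2 * sysC S) := by ring
    omega
  · intro A hA B hB
    rw [List.mem_append]
    left
    exact List.mem_flatten.2 ⟨A.subs, List.mem_map.2 ⟨A, hA, rfl⟩, hB⟩
  · intro k l h' A hA
    rw [List.mem_append] at h'
    rcases h' with h' | h'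
    · rw [List.mem_flatten] at h'
      obtain ⟨L, hL, h'⟩ := h'
      rw [List.mem_map] at hL
      obtain ⟨B, hB, rfl⟩ := hL
      exact ⟨B, hB, subs_trans h' (subs_mem_cnL hA)⟩
    · rw [List.mem_flatten] at h'
      obtain ⟨L, hL, h'⟩ := h'
      rw [List.mem_ofFn] at hL
      obtain ⟨i, rfl⟩ := hL
      exact ha2 i k l h' A hA
  · intro i h
    rcases ha3 ⟨i, h⟩ with h' | ⟨R, hR, u, G, h1, h2, h3⟩
    · exact Or.inl h'
    · refine Or.inr ⟨R, hR, u, G, h1, h2, fun j hj k => ?_⟩
      rw [List.mem_append]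
      right
      exact List.mem_flatten.2 ⟨aux ⟨i, h⟩, List.mem_ofFn.2 ⟨⟨i, h⟩, rfl⟩, h3 j hj k⟩

theorem TA_le [Fact p.Prime] (S : List (Rule p)) {t d : ℕ} (ht : 1 ≤ t) :
    p * (t * (p * (t * p) ^ d)) ≤ TA S t d ∧ 1 ≤ (t * p) ^ d ∧ 4 * (t * p) ^ d ≤ p * (t * (p * (t * p) ^ d)) := by
  have hp := (Fact.out : p.Prime).two_le
  refine ⟨?_, one_le_e ht, ?_⟩
  · unfold TA
    exact Nat.le_mul_of_pos_left _ (sysC_pos S)
  · calc 4 * (t * p) ^ d = 2 * (1 * (2 * (t * p) ^ d)) := by ring
      _ ≤ p * (t * (p * (t * p) ^ d)) :=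
        Nat.mul_le_mul hp (Nat.mul_le_mul ht (Nat.mul_le_mul_right _ hp))

/-- All lines have value 1 on a vector which respects all gates, if the input clauses which occur have value 1. -/
theorem lines_ok [Fact p.Prime] [CharP K p] (s : Slow K E n) (σ : Sel K n) {t d : ℕ} (ht : 1 ≤ t) {f : E} (hf : f ∈ s.M 0)
    (S : List (Rule p)) (hS : ∀ R ∈ S, R.Sound) (F : CNF) (π : List (Fm p)) (hd : ∀ A ∈ π, A.dep 0 ≤ d)
    (hF : ∀ C ∈ F, (clauseFm C : Fm p) ∈ π → s.Z f (1 - σ.h t (clauseFm C : Fm p)))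
    (Λ : List (Fm p)) (h1 : ∀ A ∈ π, ∀ B ∈ A.subs, B ∈ Λ) (hR : ∀ B ∈ Λ, s.RespS σ t f B)
    (h2 : ∀ (i : ℕ) (h : i < π.length), (∃ C ∈ F, π[i] = clauseFm C) ∨
        ∃ R ∈ S, ∃ (u : ℕ → Fm p) (G : ℕ → List (Fm p)), R.concl.inst u G = [π[i]] ∧
          (∀ P ∈ R.prem, ∀ B ∈ P.inst u G, B ∈ π.take i) ∧ ∀ j ∈ R.sqs, ∀ k, cnL k (G j) ∈ Λ)
    (hL : 4 * TA S t d ≤ s.L) : ∀ A ∈ π, s.Z f (1 - σ.h t A) := by
  obtain ⟨hT1, hT2, hT3⟩ := TA_le (p := p) S (d := d) ht
  have hOk : ∀ A ∈ π, s.OkS σ t d f A := fun A hA B hB => ⟨hR B (h1 A hA B hB), (dep_subs hB).trans (hd A hA)⟩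
  have key : ∀ (i : ℕ) (h : i < π.length), s.Z f (1 - σ.h t π[i]) := by
    intro i
    induction i using Nat.strong_induction_on with
    | _ i ih =>
      intro h
      have hi : π[i] ∈ π := List.getElem_mem h
      rcases h2 i h with ⟨C, hC, hCi⟩ | ⟨R, hRS, u, G, h3, h4, h5⟩
      · rw [hCi]
        rw [hCi] at hi
        exact hF C hC hi
      · have hc : ∀ A ∈ R.concl.inst u G, s.OkS σ t d f A := by
          intro A hA
          rw [h3, List.mem_singleton] at hA
          rw [hA]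
          exact hOk _ hi
        have hsc := sysC_le hRS
        refine rule_ok (T := TA S t d) s σ ht hf R (hS R hRS) u G
          (fun P hP A hA => hOk _ (List.mem_of_mem_take (h4 P hP A hA))) hc (fun j hj k => hR _ (h5 j hj k)) ?_ ?_ (by omega) ?_ _ ?_
        · unfold TA
          exact Nat.mul_le_mul_right _ hsc
        · have h6 : t * (p * (t * p) ^ d) ≤ p * (t * (p * (t * p) ^ d)) :=
            Nat.le_mul_of_pos_left _ (Fact.out : p.Prime).pos
          omega
        · intro P hP A hA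
          have h6 := h4 P hP A hA
          rw [List.mem_take_iff_getElem] at h6
          obtain ⟨j, hj, rfl⟩ := h6
          exact ih j (by omega) (by omega)
        · rw [h3]
          exact List.mem_singleton.2 rfl
  intro A hA
  obtain ⟨i, hi, rfl⟩ := List.mem_iff_getElem.1 hA
  exact key i hi

/-- A clause of variables whose sum acts as 1 on `f` has the value 1. -/
theorem clause_okP (s : Slow K E n) (σ : Sel K n) {t T : ℕ} {f : E} (hf : f ∈ s.M 0) (l : List (Fin n))
    (hR : s.RespS σ t f (clauseFm (l.map fun i : Fin n => (i.1, true)) : Fm p))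
    (hP : σ.h t (clauseFm (l.map fun i : Fin n => (i.1, true)) : Fm p) ∈ Dg K n T) (hL : T + 1 ≤ s.L)
    (hsum : (l.map fun i => s.X i f).sum = f) :
    s.Z f (1 - σ.h t (clauseFm (l.map fun i : Fin n => (i.1, true)) : Fm p)) := by
  obtain ⟨P, hPe⟩ : ∃ P, P = 1 - σ.h t (clauseFm (l.map fun i : Fin n => (i.1, true)) : Fm p) := ⟨_, rfl⟩
  have hPd : P ∈ Dg K n T := by
    rw [hPe]
    exact Submodule.sub_mem _ (Dg_one _) hP
  have hx : ∀ i : Fin n, σ.h t (.var (i : ℕ) : Fm p) = mono K {i} := by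
    intro i
    rw [h_var, mono_single]
    funext a
    rw [dif_pos i.2]
  have h1 : ∀ i ∈ l, s.act P (s.X i f) = 0 := by
    intro i hi
    have h2 : σ.h t (.var (i : ℕ) : Fm p) ∈
        σ.fl t true ((l.map fun i : Fin n => (i.1, true)).map fun l : Lit => if l.2 then (.var l.1 : Fm p) else .neg (.var l.1)) := by
      rw [mem_fl]
      refine ⟨.var (i : ℕ), List.mem_map.2 ⟨(i.1, true), List.mem_map.2 ⟨i, hi, rfl⟩, rfl⟩, ?_⟩
      rw [hl_var]
      exact List.mem_singleton.2 rfl
    have h3 : s.Z f (P * mono K {i}) := by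
      have h4 := resp_cnL s σ t f true _ hR h2
      rw [hx] at h4
      rw [hPe]
      exact h4
    have h4 : mono K {i} ∈ Dg K n 1 := mono_mem _ (by rw [Finset.card_singleton])
    unfold Slow.Z at h3
    rw [← act_mul s hf hPd h4 (by omega), act_var] at h3
    exact h3
  have h5 : ∀ l' : List (Fin n), (∀ i ∈ l', s.act P (s.X i f) = 0) → s.act P ((l'.map fun i => s.X i f).sum) = 0 := by
    intro l' hl'
    induction l' with
    | nil => rw [List.map_nil, List.sum_nil, map_zero]
    | cons i l' ih =>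
      rw [List.map_cons, List.sum_cons, map_add, hl' i List.mem_cons_self,
        ih fun j hj => hl' j (List.mem_cons_of_mem _ hj), add_zero]
  unfold Slow.Z
  rw [← hPe, ← hsum]
  exact h5 l h1

/-- If `f` respects all gates of a refutation and the input clauses which occur have value 1 on `f` then `f = 0`. -/
theorem sound [Fact p.Prime] (S : List (Rule p)) (hS : ∀ R ∈ S, R.Sound) (d : ℕ) (F : CNF) (π : List (Fm p))
    (hπ : Refutes S d F π) :
    ∃ Λ : List (Fm p), Λ.length ≤ 3 * sysC S * psize π ∧ (∀ A ∈ π, ∀ B ∈ A.subs, B ∈ Λ) ∧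
      (∀ k l, cnL k l ∈ Λ → ∀ A ∈ l, (∃ B ∈ π, A ∈ B.subs) ∧ A.dep 0 ≤ d) ∧
      ∀ (K : Type) [Field K] [CharP K p] (E : Type) [AddCommGroup E] [Module K E] (n : ℕ) (s : Slow K E n) (σ : Sel K n) (t : ℕ),
        1 ≤ t → ∀ f ∈ s.M 0, (∀ B ∈ Λ, s.RespS σ t f B) →
        (∀ C ∈ F, (clauseFm C : Fm p) ∈ π → s.Z f (1 - σ.h t (clauseFm C : Fm p))) → 4 * TA S t d ≤ s.L → f = 0 := by
  obtain ⟨Λ, hlen, hsub, hdep, hdata⟩ := gates_exS S d F π hπ
  refine ⟨Λ, hlen, hsub, fun k l h A hA => ?_, ?_⟩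
  · obtain ⟨B, hB, hAB⟩ := hdep k l h A hA
    exact ⟨⟨B, hB, hAB⟩, (dep_subs hAB).trans (hπ.1 B hB)⟩
  · intro K _ _ E _ _ n s σ t ht f hf hR hF hL
    have hlines := lines_ok s σ ht hf S hS F π hπ.1 hF Λ hsub hR hdata hL
    have h11 := hlines _ hπ.2.2
    rw [bot_val, sub_zero] at h11
    exact Z_one s h11

end PPh.Sd
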